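import Mathlib

/-!
Analytic part: norm equivalence and a lower bound for the measure of the good set.
-/

open MeasureTheory

namespace Pool.Agent.Work.MP_07ff6b_an

section Setup
variable {𝕜 : Type*} [RCLike 𝕜] {H : Type*} [NormedAddCommGroup H] [InnerProductSpace 𝕜 H]
  {Ω : Type*}

/-- analysis operator -/
noncomputable def an (𝕜 : Type*) [RCLike 𝕜] {H : Type*} [NormedAddCommGroup H]
    [InnerProductSpace 𝕜 H] {Ω : Type*} (x : Ω → H) (h : H) (t : Ω) : 𝕜 := inner 𝕜 (x t) h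

lemma an_add (x : Ω → H) (a b : H) (t : Ω) : an 𝕜 x (a + b) t = an 𝕜 x a t + an 𝕜 x b t := by
  simp [an, inner_add_right]

lemma an_sub (x : Ω → H) (a b : H) (t : Ω) : an 𝕜 x (a - b) t = an 𝕜 x a t - an 𝕜 x b t := by
  simp [an, inner_sub_right]

lemma an_smul (x : Ω → H) (c : 𝕜) (b : H) (t : Ω) : an 𝕜 x (c • b) t = c * an 𝕜 x b t := by
  simp [an, inner_smul_right]

lemma norm_an_le (x : Ω → H) (h : H) (t : Ω) {K : ℝ} (hK : ‖x t‖ ≤ K) :
    ‖an 𝕜 x h t‖ ≤ K * ‖h‖ := by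
  unfold an
  calc ‖(inner 𝕜 (x t) h : 𝕜)‖ ≤ ‖x t‖ * ‖h‖ := norm_inner_le_norm _ _
    _ ≤ K * ‖h‖ := by gcongr

variable [MeasurableSpace Ω] (μ : Measure Ω) [IsProbabilityMeasure μ]

/-- raw hypotheses -/
structure Hyp (𝕜 : Type*) [RCLike 𝕜] {H : Type*} [NormedAddCommGroup H]
    [InnerProductSpace 𝕜 H] {Ω : Type*} [MeasurableSpace Ω] (μ : Measure Ω) (x : Ω → H)
    (C K : ℝ) : Prop where
  meas : ∀ h, Measurable (an 𝕜 x h)
  pars : ∀ h, ∫⁻ t, ‖an 𝕜 x h t‖ₑ ^ 2 ∂μ = ‖h‖ₑ ^ 2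
  bd : ∀ t, ‖x t‖ ≤ K
  spr1 : ∀ a b : H, (⨅ z : Metric.sphere (0 : 𝕜) 1,
    eLpNorm (fun t => an 𝕜 x a t - (z : 𝕜) * an 𝕜 x b t) 1 μ) ≤
      ENNReal.ofReal C * eLpNorm (fun t => ‖an 𝕜 x a t‖ - ‖an 𝕜 x b t‖) 1 μ
  spr2 : ∀ a b : H, (⨅ z : Metric.sphere (0 : 𝕜) 1,
    eLpNorm (fun t => an 𝕜 x a t - (z : 𝕜) * an 𝕜 x b t) 2 μ) ≤
      ENNReal.ofReal C * eLpNorm (fun t => ‖an 𝕜 x a t‖ - ‖an 𝕜 x b t‖) 2 μ

variable {μ} {x : Ω → H} {C K : ℝ}

lemma Hyp.measN (hyp : Hyp 𝕜 μ x C K) (h : H) : Measurable (fun t => ‖an 𝕜 x h t‖) :=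
  (hyp.meas h).norm

lemma Hyp.integrable_sq (hyp : Hyp 𝕜 μ x C K) (h : H) :
    Integrable (fun t => ‖an 𝕜 x h t‖ ^ 2) μ := by
  refine Integrable.of_bound ((hyp.measN h).pow_const 2).aestronglyMeasurable
    ((K * ‖h‖) ^ 2) (ae_of_all _ ?_)
  intro t
  rw [Real.norm_eq_abs, abs_of_nonneg (by positivity)]
  have := norm_an_le (𝕜 := 𝕜) x h t (hyp.bd t)
  gcongr

lemma Hyp.integrable_norm (hyp : Hyp 𝕜 μ x C K) (h : H) :
    Integrable (fun t => ‖an 𝕜 x h t‖) μ := by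
  refine Integrable.of_bound (hyp.measN h).aestronglyMeasurable (K * ‖h‖) (ae_of_all _ ?_)
  intro t
  rw [Real.norm_eq_abs, abs_of_nonneg (by positivity)]
  exact norm_an_le (𝕜 := 𝕜) x h t (hyp.bd t)

lemma Hyp.integral_sq (hyp : Hyp 𝕜 μ x C K) (h : H) :
    ∫ t, ‖an 𝕜 x h t‖ ^ 2 ∂μ = ‖h‖ ^ 2 := by
  rw [integral_eq_lintegral_of_nonneg_ae (ae_of_all _ (fun t => by positivity))
    ((hyp.measN h).pow_const 2).aestronglyMeasurable]
  have h1 : ∀ t, ENNReal.ofReal (‖an 𝕜 x h t‖ ^ 2) = ‖an 𝕜 x h t‖ₑ ^ 2 := by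
    intro t
    rw [ENNReal.ofReal_pow (norm_nonneg _), ofReal_norm]
  simp_rw [h1, hyp.pars h]
  simp

lemma sq_eLpNorm_two {E : Type*} [NormedAddCommGroup E] (f : Ω → E) :
    (eLpNorm f 2 μ) ^ 2 = ∫⁻ t, ‖f t‖ₑ ^ 2 ∂μ := by
  have := eLpNorm_nnreal_pow_eq_lintegral (μ := μ) (f := f) (p := 2) (by norm_num)
  simpa using this

lemma Hyp.eLpNorm_two (hyp : Hyp 𝕜 μ x C K) (h : H) :
    eLpNorm (an 𝕜 x h) 2 μ = ENNReal.ofReal ‖h‖ := by
  have h1 := sq_eLpNorm_two (μ := μ) (an 𝕜 x h)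
  rw [hyp.pars h] at h1
  rw [ofReal_norm]
  exact (ENNReal.pow_right_strictMono (by norm_num : (2 : ℕ) ≠ 0)).injective h1

lemma Hyp.spr2_real (hyp : Hyp 𝕜 μ x C K) (hC : 0 < C) {a b : H} {r : ℝ} (hr : 0 ≤ r)
    (hlow : ∀ z : 𝕜, ‖z‖ = 1 → r ≤ ‖a - z • b‖) :
    r ^ 2 ≤ C ^ 2 * ∫ t, (‖an 𝕜 x a t‖ - ‖an 𝕜 x b t‖) ^ 2 ∂μ := by
  have h0 : ENNReal.ofReal r ≤ ENNReal.ofReal C *
      eLpNorm (fun t => ‖an 𝕜 x a t‖ - ‖an 𝕜 x b t‖) 2 μ := by
    refine le_trans ?_ (hyp.spr2 a b)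
    apply le_iInf
    intro z
    have hz : ‖(z : 𝕜)‖ = 1 := by simpa using z.2
    have h1 : (fun t => an 𝕜 x a t - (z : 𝕜) * an 𝕜 x b t) = an 𝕜 x (a - (z : 𝕜) • b) := by
      funext t
      rw [an_sub, an_smul]
    rw [h1, hyp.eLpNorm_two]
    exact ENNReal.ofReal_le_ofReal (hlow _ hz)
  have h2 : (ENNReal.ofReal r) ^ 2 ≤ (ENNReal.ofReal C) ^ 2 *
      (eLpNorm (fun t => ‖an 𝕜 x a t‖ - ‖an 𝕜 x b t‖) 2 μ) ^ 2 := by
    rw [← mul_pow]; gcongr
  rw [sq_eLpNorm_two] at h2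
  have hmeas : Measurable (fun t => (‖an 𝕜 x a t‖ - ‖an 𝕜 x b t‖) ^ 2) :=
    ((hyp.measN a).sub (hyp.measN b)).pow_const 2
  have hint : Integrable (fun t => (‖an 𝕜 x a t‖ - ‖an 𝕜 x b t‖) ^ 2) μ := by
    refine Integrable.mono' (((hyp.integrable_sq a).add (hyp.integrable_sq b)).const_mul 2)
      hmeas.aestronglyMeasurable (ae_of_all _ ?_)
    intro t
    rw [Real.norm_eq_abs, abs_of_nonneg (sq_nonneg _)]
    simp only [Pi.add_apply]
    nlinarith [sq_nonneg (‖an 𝕜 x a t‖ + ‖an 𝕜 x b t‖)]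
  have h3 : ∫⁻ t, ‖‖an 𝕜 x a t‖ - ‖an 𝕜 x b t‖‖ₑ ^ 2 ∂μ =
      ENNReal.ofReal (∫ t, (‖an 𝕜 x a t‖ - ‖an 𝕜 x b t‖) ^ 2 ∂μ) := by
    rw [ofReal_integral_eq_lintegral_ofReal hint (ae_of_all _ (fun t => sq_nonneg _))]
    apply lintegral_congr
    intro t
    rw [← ofReal_norm, ← ENNReal.ofReal_pow (norm_nonneg _), Real.norm_eq_abs, sq_abs]
  rw [h3, ← ENNReal.ofReal_pow hr, ← ENNReal.ofReal_pow hC.le,
    ← ENNReal.ofReal_mul (by positivity)] at h2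
  rwa [ENNReal.ofReal_le_ofReal_iff (by
    apply mul_nonneg (by positivity)
    exact integral_nonneg (fun t => sq_nonneg _))] at h2

lemma Hyp.spr1_real (hyp : Hyp 𝕜 μ x C K) (hC : 0 < C) {a b : H} {r : ℝ}
    (hlow : ∀ z : 𝕜, ‖z‖ = 1 → r ≤ ∫ t, ‖an 𝕜 x (a - z • b) t‖ ∂μ) :
    r ≤ C * ∫ t, |‖an 𝕜 x a t‖ - ‖an 𝕜 x b t‖| ∂μ := by
  have hmeas : Measurable (fun t => (‖an 𝕜 x a t‖ - ‖an 𝕜 x b t‖)) :=
    ((hyp.measN a).sub (hyp.measN b))
  have hint : Integrable (fun t => (‖an 𝕜 x a t‖ - ‖an 𝕜 x b t‖)) μ :=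
    (hyp.integrable_norm a).sub (hyp.integrable_norm b)
  have h0 : ENNReal.ofReal r ≤ ENNReal.ofReal C *
      eLpNorm (fun t => ‖an 𝕜 x a t‖ - ‖an 𝕜 x b t‖) 1 μ := by
    refine le_trans ?_ (hyp.spr1 a b)
    apply le_iInf
    intro z
    have hz : ‖(z : 𝕜)‖ = 1 := by simpa using z.2
    have h1 : (fun t => an 𝕜 x a t - (z : 𝕜) * an 𝕜 x b t) = an 𝕜 x (a - (z : 𝕜) • b) := by
      funext t
      rw [an_sub, an_smul]
    rw [h1, eLpNorm_one_eq_lintegral_enorm]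
    refine (ENNReal.ofReal_le_ofReal (hlow _ hz)).trans (le_of_eq ?_)
    rw [ofReal_integral_eq_lintegral_ofReal (hyp.integrable_norm _)
      (ae_of_all _ (fun t => norm_nonneg _))]
    apply lintegral_congr
    intro t
    rw [ofReal_norm]
  rw [eLpNorm_one_eq_lintegral_enorm] at h0
  have h3 : ∫⁻ t, ‖‖an 𝕜 x a t‖ - ‖an 𝕜 x b t‖‖ₑ ∂μ =
      ENNReal.ofReal (∫ t, |‖an 𝕜 x a t‖ - ‖an 𝕜 x b t‖| ∂μ) := by
    rw [ofReal_integral_eq_lintegral_ofReal hint.abs (ae_of_all _ (fun t => abs_nonneg _))]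
    apply lintegral_congr
    intro t
    rw [← ofReal_norm, Real.norm_eq_abs]
  rw [h3, ← ENNReal.ofReal_mul hC.le] at h0
  rwa [ENNReal.ofReal_le_ofReal_iff (by
    apply mul_nonneg hC.le
    exact integral_nonneg (fun t => abs_nonneg _))] at h0

/-- For a unit vector `u` and a unit vector `v` orthogonal to `u`. -/
lemma Hyp.overlap (hyp : Hyp 𝕜 μ x C K) (hC : 0 < C) {u v : H} (hu : ‖u‖ = 1) (hv : ‖v‖ = 1)
    (huv : inner 𝕜 u v = 0) {s : ℝ} (hs : 0 ≤ s) :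
    1 / C ^ 2 ≤ ∫ t in {t | s < ‖an 𝕜 x u t‖}, ‖an 𝕜 x v t‖ ^ 2 ∂μ + s ^ 2 := by
  have h1 := hyp.spr2_real hC (a := u + v) (b := u - v) (r := 2) (by norm_num) (by
    intro z hz
    have h2 : u + v - z • (u - v) = (1 - z) • u + (1 + z) • v := by
      simp only [sub_smul, add_smul, smul_sub, one_smul]; abel
    rw [h2]
    have h3 : ‖(1 - z) • u + (1 + z) • v‖ ^ 2 = 4 := by
      have h4 : inner 𝕜 ((1 - z) • u) ((1 + z) • v) = 0 := by
        rw [inner_smul_left, inner_smul_right, huv]; simp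
      rw [norm_add_pow_two (𝕜 := 𝕜), h4]
      simp only [norm_smul, hu, hv, mul_one, map_zero, mul_zero, add_zero]
      have h5 := parallelogram_law_with_norm 𝕜 (1 : 𝕜) z
      rw [hz, norm_one] at h5
      nlinarith
    nlinarith [norm_nonneg ((1 - z) • u + (1 + z) • v)])
  set A : Set Ω := {t | s < ‖an 𝕜 x u t‖} with hA
  have hAm : MeasurableSet A := measurableSet_lt measurable_const (hyp.measN u)
  have hpt : ∀ t, (‖an 𝕜 x (u + v) t‖ - ‖an 𝕜 x (u - v) t‖) ^ 2 ≤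
      4 * (A.indicator (fun t => ‖an 𝕜 x v t‖ ^ 2) t + s ^ 2) := by
    intro t
    rw [an_add, an_sub]
    set p := an 𝕜 x u t
    set q := an 𝕜 x v t
    have h5 : |‖p + q‖ - ‖p - q‖| ≤ 2 * ‖q‖ := by
      have := abs_norm_sub_norm_le (p + q) (p - q)
      have h6 : p + q - (p - q) = q + q := by ring
      rw [h6] at this
      have := norm_add_le q q
      linarith
    have h6 : |‖p + q‖ - ‖p - q‖| ≤ 2 * ‖p‖ := by
      have := abs_norm_sub_norm_le (p + q) (-(p - q))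
      rw [norm_neg] at this
      have h6 : p + q - -(p - q) = p + p := by ring
      rw [h6] at this
      have := norm_add_le p p
      linarith
    by_cases ht : t ∈ A
    · rw [Set.indicator_of_mem ht]
      have : (‖p + q‖ - ‖p - q‖) ^ 2 ≤ (2 * ‖q‖) ^ 2 := by
        rw [← sq_abs]; gcongr
      nlinarith [sq_nonneg s]
    · rw [Set.indicator_of_notMem ht]
      have hps : ‖p‖ ≤ s := by
        have : ¬ (s < ‖an 𝕜 x u t‖) := ht
        push Not at this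
        exact this
      have : (‖p + q‖ - ‖p - q‖) ^ 2 ≤ (2 * s) ^ 2 := by
        rw [← sq_abs]
        have : |‖p + q‖ - ‖p - q‖| ≤ 2 * s := by linarith
        gcongr
      nlinarith
  have hintA : Integrable (A.indicator (fun t => ‖an 𝕜 x v t‖ ^ 2)) μ :=
    (hyp.integrable_sq v).indicator hAm
  have h6 : ∫ t, (‖an 𝕜 x (u + v) t‖ - ‖an 𝕜 x (u - v) t‖) ^ 2 ∂μ ≤
      ∫ t, 4 * (A.indicator (fun t => ‖an 𝕜 x v t‖ ^ 2) t + s ^ 2) ∂μ := by
    apply integral_mono_of_nonneg (ae_of_all _ (fun t => sq_nonneg _))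
      ((hintA.add (integrable_const _)).const_mul 4) (ae_of_all _ hpt)
  rw [integral_const_mul, integral_add hintA (integrable_const _),
    integral_indicator hAm, integral_const, probReal_univ, one_smul] at h6
  have hC2 : 0 < C ^ 2 := by positivity
  rw [div_le_iff₀ hC2]
  nlinarith

lemma Hyp.one_le_C (hyp : Hyp 𝕜 μ x C K) (hC : 0 < C) {u : H} (hu : ‖u‖ = 1) : 1 ≤ C ^ 2 := by
  have h1 := hyp.spr2_real hC (a := u) (b := 0) (r := 1) (by norm_num) (by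
    intro z hz
    simp [hu])
  have h2 : ∀ t, an 𝕜 x (0 : H) t = 0 := by intro t; simp [an]
  simp only [h2, norm_zero, sub_zero, hyp.integral_sq u, hu] at h1
  simpa using h1

/-- Lower bound for the measure of the set where a unit vector is not small. -/
lemma Hyp.measure_large (hyp : Hyp 𝕜 μ x C K) (hC : 0 < C) [FiniteDimensional 𝕜 H] {n : ℕ}
    (hn : Module.finrank 𝕜 H = n) (hn0 : 0 < n) {β : ℝ} (hβ : 0 < β)
    (hK : K = β * Real.sqrt n) {u : H} (hu : ‖u‖ = 1) :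
    3 / (4 * C ^ 2 * β ^ 2) ≤ μ.real {t | 1 / (2 * C) < ‖an 𝕜 x u t‖} := by
  classical
  set s : ℝ := 1 / (2 * C) with hs
  have hs2 : s ^ 2 = 1 / (4 * C ^ 2) := by rw [hs]; field_simp; norm_num
  set A : Set Ω := {t | s < ‖an 𝕜 x u t‖} with hA
  have hAm : MeasurableSet A := measurableSet_lt measurable_const (hyp.measN u)
  have hC1 := hyp.one_le_C hC hu
  have hi0 : 0 < n := hn0
  let i0 : Fin n := ⟨0, hn0⟩
  obtain ⟨e, he⟩ := Orthonormal.exists_orthonormalBasis_extension_of_card_eq (𝕜 := 𝕜) (E := H)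
    (ι := Fin n) (by simp [hn]) (v := fun _ => u) (s := {i0}) (by
      rw [orthonormal_iff_ite]
      intro i j
      have : i = j := Subsingleton.elim _ _
      simp [this, hu])
  have he0 : e i0 = u := he i0 (by simp)
  have hlow : ∀ i, 3 / (4 * C ^ 2) ≤ ∫ t in A, ‖an 𝕜 x (e i) t‖ ^ 2 ∂μ := by
    intro i
    by_cases hi : i = i0
    · subst hi
      rw [he0]
      have h1 := integral_add_compl hAm (hyp.integrable_sq u)
      rw [hyp.integral_sq u, hu] at h1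
      have h2 : ∫ t in Aᶜ, ‖an 𝕜 x u t‖ ^ 2 ∂μ ≤ s ^ 2 := by
        calc ∫ t in Aᶜ, ‖an 𝕜 x u t‖ ^ 2 ∂μ ≤ ∫ t in Aᶜ, s ^ 2 ∂μ := by
              apply setIntegral_mono_on (hyp.integrable_sq u).integrableOn
                (integrable_const _).integrableOn hAm.compl
              intro t ht
              have h3 : ¬ (s < ‖an 𝕜 x u t‖) := ht
              push Not at h3
              gcongr
          _ = μ.real Aᶜ * s ^ 2 := by
              rw [setIntegral_const, smul_eq_mul]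
          _ ≤ 1 * s ^ 2 := by
              gcongr
              exact measureReal_le_one
          _ = s ^ 2 := one_mul _
      have h4 : 1 / (4 * C ^ 2) ≤ 1 / 4 := by
        apply one_div_le_one_div_of_le (by norm_num); nlinarith
      have h5 : 3 / (4 * C ^ 2) ≤ 3 / 4 := by
        have : 3 / (4 * C ^ 2) = 3 * (1 / (4 * C ^ 2)) := by ring
        rw [this]; linarith
      rw [hs2] at h2
      norm_num at h1
      linarith
    · have horth : inner 𝕜 u (e i) = 0 := by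
        rw [← he0]
        exact e.orthonormal.2 (fun h => hi h.symm)
      have h1 := hyp.overlap hC hu (e.orthonormal.1 i) horth (s := s) (by positivity)
      rw [hs2] at h1
      have h2 : 1 / C ^ 2 = 3 / (4 * C ^ 2) + 1 / (4 * C ^ 2) := by
        field_simp; norm_num
      rw [h2] at h1
      linarith
  have hsum : ∑ i, ∫ t in A, ‖an 𝕜 x (e i) t‖ ^ 2 ∂μ = ∫ t in A, ‖x t‖ ^ 2 ∂μ := by
    rw [← integral_finsetSum _ (fun i _ => (hyp.integrable_sq (e i)).integrableOn)]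
    apply integral_congr_ae
    apply ae_of_all
    intro t
    simp only [an]
    exact e.sum_sq_norm_inner_left (x t)
  have hup : ∫ t in A, ‖x t‖ ^ 2 ∂μ ≤ K ^ 2 * μ.real A := by
    have hint : IntegrableOn (fun t => ‖x t‖ ^ 2) A μ := by
      have : (fun t => ‖x t‖ ^ 2) = fun t => ∑ i, ‖an 𝕜 x (e i) t‖ ^ 2 := by
        funext t
        simp only [an]
        exact (e.sum_sq_norm_inner_left (x t)).symm
      rw [this]
      exact (integrable_finsetSum _ (fun i _ => hyp.integrable_sq (e i))).integrableOn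
    calc ∫ t in A, ‖x t‖ ^ 2 ∂μ ≤ ∫ t in A, K ^ 2 ∂μ := by
          apply setIntegral_mono_on hint (integrable_const _).integrableOn hAm
          intro t _
          have := hyp.bd t
          gcongr
      _ = K ^ 2 * μ.real A := by rw [setIntegral_const, smul_eq_mul, mul_comm]
  have hK2 : K ^ 2 = β ^ 2 * n := by
    rw [hK, mul_pow, Real.sq_sqrt (by positivity)]
  have hfin : (n : ℝ) * (3 / (4 * C ^ 2)) ≤ β ^ 2 * n * μ.real A := by
    calc (n : ℝ) * (3 / (4 * C ^ 2)) = ∑ _i : Fin n, 3 / (4 * C ^ 2) := by simp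
      _ ≤ ∑ i, ∫ t in A, ‖an 𝕜 x (e i) t‖ ^ 2 ∂μ := Finset.sum_le_sum (fun i _ => hlow i)
      _ = ∫ t in A, ‖x t‖ ^ 2 ∂μ := hsum
      _ ≤ _ := by rw [← hK2]; exact hup
  have hnR : (0 : ℝ) < n := by exact_mod_cast hn0
  have h7 : 3 / (4 * C ^ 2) ≤ β ^ 2 * μ.real A := by
    have : (n : ℝ) * (3 / (4 * C ^ 2)) ≤ n * (β ^ 2 * μ.real A) := by
      calc _ ≤ _ := hfin
        _ = _ := by ring
    exact le_of_mul_le_mul_left this hnR
  have h8 : 3 / (4 * C ^ 2 * β ^ 2) = (3 / (4 * C ^ 2)) / β ^ 2 := by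
    rw [div_div]
  rw [h8, div_le_iff₀ (by positivity)]
  linarith

/-- Equivalence of the `L1` and `L2` norms on the range of the analysis operator. -/
lemma Hyp.norm_equiv (hyp : Hyp 𝕜 μ x C K) (hC : 0 < C) [FiniteDimensional 𝕜 H] {n : ℕ}
    (hn : Module.finrank 𝕜 H = n) (hn0 : 0 < n) {β : ℝ} (hβ : 0 < β)
    (hK : K = β * Real.sqrt n) (h : H) :
    3 / (8 * C ^ 3 * β ^ 2) * ‖h‖ ≤ ∫ t, ‖an 𝕜 x h t‖ ∂μ := by
  by_cases h0 : h = 0
  · subst h0
    simp only [norm_zero, mul_zero]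
    exact integral_nonneg (fun t => norm_nonneg _)
  have hpos : 0 < ‖h‖ := norm_pos_iff.2 h0
  set u : H := ((‖h‖⁻¹ : ℝ) : 𝕜) • h with hu
  have hu1 : ‖u‖ = 1 := by
    rw [hu, norm_smul, RCLike.norm_ofReal, abs_of_pos (by positivity)]
    exact inv_mul_cancel₀ hpos.ne'
  have h1 := hyp.measure_large hC hn hn0 hβ hK hu1
  set A : Set Ω := {t | 1 / (2 * C) < ‖an 𝕜 x u t‖} with hA
  have hAm : MeasurableSet A := measurableSet_lt measurable_const (hyp.measN u)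
  have h2 : 1 / (2 * C) * μ.real A ≤ ∫ t, ‖an 𝕜 x u t‖ ∂μ := by
    calc 1 / (2 * C) * μ.real A = ∫ t in A, 1 / (2 * C) ∂μ := by
          rw [setIntegral_const, smul_eq_mul, mul_comm]
      _ ≤ ∫ t in A, ‖an 𝕜 x u t‖ ∂μ := by
          apply setIntegral_mono_on (integrable_const _).integrableOn
            (hyp.integrable_norm u).integrableOn hAm
          intro t ht
          exact le_of_lt ht
      _ ≤ ∫ t, ‖an 𝕜 x u t‖ ∂μ :=
          setIntegral_le_integral (hyp.integrable_norm u) (ae_of_all _ (fun t => norm_nonneg _))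
  have h3 : ∫ t, ‖an 𝕜 x u t‖ ∂μ = ‖h‖⁻¹ * ∫ t, ‖an 𝕜 x h t‖ ∂μ := by
    rw [← integral_const_mul]
    apply integral_congr_ae
    apply ae_of_all
    intro t
    simp only [hu]
    rw [an_smul, norm_mul, RCLike.norm_ofReal, abs_of_pos (by positivity)]
  rw [h3] at h2
  have h4 : 1 / (2 * C) * (3 / (4 * C ^ 2 * β ^ 2)) ≤ ‖h‖⁻¹ * ∫ t, ‖an 𝕜 x h t‖ ∂μ := by
    refine le_trans ?_ h2
    gcongr
  have h5 : 1 / (2 * C) * (3 / (4 * C ^ 2 * β ^ 2)) = 3 / (8 * C ^ 3 * β ^ 2) := by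
    field_simp; norm_num
  rw [h5] at h4
  rw [← div_eq_inv_mul, le_div_iff₀ hpos] at h4
  exact h4

end Setup

end Pool.Agent.Work.MP_07ff6b_an
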