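import Mathlib

/-!
Symmetrisation: existence of a sample that approximates all measures of a countable
family of sets with few patterns.
-/

open Finset MeasureTheory

namespace Pool.Agent.Work.MP_07ff6b_an

/-- sign attached to a Boolean -/
noncomputable def sgn (b : Bool) : ℝ := if b then -1 else 1

lemma sum_exp_sign_le (m : ℕ) (θ : ℝ) (a : Fin m → ℝ) (ha : ∀ j, |a j| ≤ 1) :
    ∑ ε : Fin m → Bool, Real.exp (θ * ∑ j, sgn (ε j) * a j) ≤
      2 ^ m * Real.exp (θ ^ 2 / 2) ^ m := by
  have h1 : ∀ ε : Fin m → Bool, Real.exp (θ * ∑ j, sgn (ε j) * a j) =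
      ∏ j, Real.exp (θ * (sgn (ε j) * a j)) := by
    intro ε
    rw [Finset.mul_sum, Real.exp_sum]
  simp_rw [h1]
  have h2 : ∑ ε : Fin m → Bool, ∏ j, Real.exp (θ * (sgn (ε j) * a j)) =
      ∏ j, ∑ b : Bool, Real.exp (θ * (sgn b * a j)) := by
    rw [Finset.prod_univ_sum, Fintype.piFinset_univ]
  rw [h2]
  calc ∏ j, ∑ b : Bool, Real.exp (θ * (sgn b * a j))
      ≤ ∏ _j : Fin m, (2 * Real.exp (θ ^ 2 / 2)) := by
        apply Finset.prod_le_prod
        · intro j _
          positivity
        · intro j _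
          have h3 : ∑ b : Bool, Real.exp (θ * (sgn b * a j)) = 2 * Real.cosh (θ * a j) := by
            rw [Fintype.sum_bool, Real.cosh_eq]
            simp only [sgn]
            simp
            ring
          rw [h3]
          have h4 := Real.cosh_le_exp_half_sq (θ * a j)
          have h5 : (θ * a j) ^ 2 / 2 ≤ θ ^ 2 / 2 := by
            have h6 : (a j) ^ 2 ≤ 1 := by
              have := ha j
              rw [← sq_abs]
              nlinarith [abs_nonneg (a j)]
            rw [mul_pow]
            nlinarith [sq_nonneg θ]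
          have h7 := Real.exp_le_exp.2 h5
          linarith
    _ = 2 ^ m * Real.exp (θ ^ 2 / 2) ^ m := by
        simp [mul_pow]

section
variable {Ω : Type*} [MeasurableSpace Ω] (μ : Measure Ω) [IsProbabilityMeasure μ]
  {I : Type*} [Countable I] (B : I → Set Ω)

/-- difference of indicators at a pair of points -/
noncomputable def dInd (S : Set Ω) (p : Ω × Ω) : ℝ :=
  S.indicator (fun _ => (1 : ℝ)) p.2 - S.indicator (fun _ => (1 : ℝ)) p.1

lemma dInd_swap (S : Set Ω) (p : Ω × Ω) : dInd S p.swap = - dInd S p := by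
  simp [dInd]

lemma abs_dInd_le (S : Set Ω) (p : Ω × Ω) : |dInd S p| ≤ 1 := by
  unfold dInd
  by_cases h1 : p.1 ∈ S <;> by_cases h2 : p.2 ∈ S <;> simp [h1, h2]

lemma measurable_dInd {S : Set Ω} (hS : MeasurableSet S) : Measurable (dInd S) := by
  unfold dInd
  apply Measurable.sub
  · exact (measurable_const.indicator hS).comp measurable_snd
  · exact (measurable_const.indicator hS).comp measurable_fst

/-- coordinatewise swap -/
def swapPt {m : ℕ} (ε : Fin m → Bool) (z : Fin m → Ω × Ω) : Fin m → Ω × Ω :=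
  fun j => if ε j then (z j).swap else z j

lemma dInd_swapPt {m : ℕ} (ε : Fin m → Bool) (z : Fin m → Ω × Ω) (S : Set Ω) (j : Fin m) :
    dInd S (swapPt ε z j) = sgn (ε j) * dInd S (z j) := by
  unfold swapPt sgn
  by_cases h : ε j
  · simp [h, dInd_swap]
  · simp [h]

lemma measurePreserving_swapPt {m : ℕ} (ε : Fin m → Bool) :
    MeasurePreserving (swapPt (Ω := Ω) ε) (Measure.pi fun _ : Fin m => μ.prod μ)
      (Measure.pi fun _ : Fin m => μ.prod μ) := by
  have := measurePreserving_pi (fun _ : Fin m => μ.prod μ) (fun _ : Fin m => μ.prod μ)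
    (f := fun j p => if ε j then p.swap else p) (by
      intro j
      by_cases h : ε j
      · simp only [h, if_true]
        exact Measure.measurePreserving_swap
      · simp only [h]
        exact MeasurePreserving.id _)
  exact this

/-- the exponential supremum -/
noncomputable def bigF (θ : ℝ) {m : ℕ} (z : Fin m → Ω × Ω) : ENNReal :=
  ⨆ i, ENNReal.ofReal (Real.exp (θ * ∑ j, dInd (B i) (z j)))

lemma measurable_bigF (hB : ∀ i, MeasurableSet (B i)) (θ : ℝ) {m : ℕ} :
    Measurable (bigF B θ (m := m)) := by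
  unfold bigF
  apply Measurable.iSup
  intro i
  apply ENNReal.measurable_ofReal.comp
  apply Real.measurable_exp.comp
  apply Measurable.const_mul
  apply Finset.measurable_sum
  intro j _
  exact (measurable_dInd (hB i)).comp (measurable_pi_apply j)

lemma sum_bigF_swap_le (θ : ℝ) {m : ℕ} (K : ℕ) (z : Fin m → Ω × Ω)
    (hK : (Set.range (fun i => fun j => dInd (B i) (z j))).Finite ∧
      (Set.range (fun i => fun j => dInd (B i) (z j))).ncard ≤ K) :
    ∑ ε : Fin m → Bool, bigF B θ (swapPt ε z) ≤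
      ENNReal.ofReal (K * (2 ^ m * Real.exp (θ ^ 2 / 2) ^ m)) := by
  classical
  obtain ⟨hfin, hcard⟩ := hK
  set A : Finset (Fin m → ℝ) := hfin.toFinset with hA
  have hAcard : A.card ≤ K := by
    rw [hA, ← Set.ncard_eq_toFinset_card _ hfin]; exact hcard
  have h1 : ∀ ε : Fin m → Bool, bigF B θ (swapPt ε z) ≤
      ENNReal.ofReal (∑ a ∈ A, Real.exp (θ * ∑ j, sgn (ε j) * a j)) := by
    intro ε
    unfold bigF
    apply iSup_le
    intro i
    apply ENNReal.ofReal_le_ofReal
    simp_rw [dInd_swapPt]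
    have hmem : (fun j => dInd (B i) (z j)) ∈ A := by
      rw [hA, Set.Finite.mem_toFinset]
      exact ⟨i, rfl⟩
    exact Finset.single_le_sum (f := fun a : Fin m → ℝ => Real.exp (θ * ∑ j, sgn (ε j) * a j))
      (fun a _ => (Real.exp_pos _).le) hmem
  calc ∑ ε : Fin m → Bool, bigF B θ (swapPt ε z)
      ≤ ∑ ε : Fin m → Bool, ENNReal.ofReal (∑ a ∈ A, Real.exp (θ * ∑ j, sgn (ε j) * a j)) :=
        Finset.sum_le_sum (fun ε _ => h1 ε)
    _ = ENNReal.ofReal (∑ ε : Fin m → Bool, ∑ a ∈ A, Real.exp (θ * ∑ j, sgn (ε j) * a j)) := by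
        rw [ENNReal.ofReal_sum_of_nonneg]
        intro ε _
        exact Finset.sum_nonneg (fun a _ => (Real.exp_pos _).le)
    _ ≤ ENNReal.ofReal (K * (2 ^ m * Real.exp (θ ^ 2 / 2) ^ m)) := by
        apply ENNReal.ofReal_le_ofReal
        rw [Finset.sum_comm]
        calc ∑ a ∈ A, ∑ ε : Fin m → Bool, Real.exp (θ * ∑ j, sgn (ε j) * a j)
            ≤ ∑ _a ∈ A, (2 ^ m * Real.exp (θ ^ 2 / 2) ^ m) := by
              apply Finset.sum_le_sum
              intro a ha
              apply sum_exp_sign_le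
              intro j
              rw [hA, Set.Finite.mem_toFinset] at ha
              obtain ⟨i, rfl⟩ := ha
              exact abs_dInd_le _ _
          _ = A.card * (2 ^ m * Real.exp (θ ^ 2 / 2) ^ m) := by
              rw [Finset.sum_const, nsmul_eq_mul]
          _ ≤ K * (2 ^ m * Real.exp (θ ^ 2 / 2) ^ m) := by
              gcongr

lemma lintegral_bigF_le (hB : ∀ i, MeasurableSet (B i)) (θ : ℝ) {m : ℕ} (K : ℕ)
    (hK : ∀ z : Fin m → Ω × Ω, (Set.range (fun i => fun j => dInd (B i) (z j))).Finite ∧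
      (Set.range (fun i => fun j => dInd (B i) (z j))).ncard ≤ K) :
    ∫⁻ z, bigF B θ z ∂(Measure.pi fun _ : Fin m => μ.prod μ) ≤
      ENNReal.ofReal (K * Real.exp (θ ^ 2 / 2) ^ m) := by
  classical
  set ν := (Measure.pi fun _ : Fin m => μ.prod μ) with hν
  have hinv : ∀ ε : Fin m → Bool, ∫⁻ z, bigF B θ (swapPt ε z) ∂ν = ∫⁻ z, bigF B θ z ∂ν :=
    fun ε => (measurePreserving_swapPt μ ε).lintegral_comp (measurable_bigF B hB θ)
  have h1 : (2 ^ m : ENNReal) * ∫⁻ z, bigF B θ z ∂ν =
      ∫⁻ z, ∑ ε : Fin m → Bool, bigF B θ (swapPt ε z) ∂ν := by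
    rw [lintegral_finsetSum]
    · rw [Finset.sum_congr rfl (fun ε _ => hinv ε), Finset.sum_const]
      simp
    · intro ε _
      exact (measurable_bigF B hB θ).comp (measurePreserving_swapPt μ ε).measurable
  have h2 : ∫⁻ z, ∑ ε : Fin m → Bool, bigF B θ (swapPt ε z) ∂ν ≤
      ENNReal.ofReal (K * (2 ^ m * Real.exp (θ ^ 2 / 2) ^ m)) := by
    calc ∫⁻ z, ∑ ε : Fin m → Bool, bigF B θ (swapPt ε z) ∂ν
        ≤ ∫⁻ _z, ENNReal.ofReal (K * (2 ^ m * Real.exp (θ ^ 2 / 2) ^ m)) ∂ν :=
          lintegral_mono (fun z => sum_bigF_swap_le B θ K z (hK z))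
      _ = _ := by simp
  rw [← h1] at h2
  have h3 : ENNReal.ofReal (K * (2 ^ m * Real.exp (θ ^ 2 / 2) ^ m)) =
      2 ^ m * ENNReal.ofReal (K * Real.exp (θ ^ 2 / 2) ^ m) := by
    rw [show (K : ℝ) * (2 ^ m * Real.exp (θ ^ 2 / 2) ^ m) =
      2 ^ m * (K * Real.exp (θ ^ 2 / 2) ^ m) by ring, ENNReal.ofReal_mul (by positivity)]
    congr 1
    rw [ENNReal.ofReal_pow (by norm_num)]
    norm_num
  rw [h3] at h2
  exact (ENNReal.mul_le_mul_iff_right (by simp) (by simp)).1 h2

/-- Sampling lemma: there is one sample of size `m` which does not miss any of the sets `B i`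
by more than `δ`. -/
theorem exists_sample (hB : ∀ i, MeasurableSet (B i)) {m : ℕ} (hm : 0 < m) (K : ℕ) (hK1 : 1 ≤ K)
    (hK : ∀ z : Fin m → Ω × Ω, (Set.range (fun i => fun j => dInd (B i) (z j))).Finite ∧
      (Set.range (fun i => fun j => dInd (B i) (z j))).ncard ≤ K)
    {δ : ℝ} (hδ : 0 < δ) (hKm : 2 * Real.log K ≤ δ ^ 2 * m) :
    ∃ t : Fin m → Ω, ∀ i, μ.real (B i) - δ ≤
      (1 / m) * ∑ j, (B i).indicator (fun _ => (1 : ℝ)) (t j) := by
  classical
  have hmR : (0 : ℝ) < m := by exact_mod_cast hm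
  set K' : ℝ := K * Real.exp (δ ^ 2 / 2) ^ m with hK'
  have hK'pos : 0 < K' := by
    have : (0 : ℝ) < K := by exact_mod_cast hK1
    positivity
  set e := MeasurableEquiv.arrowProdEquivProdArrow Ω Ω (Fin m) with he
  have hmp := measurePreserving_arrowProdEquivProdArrow Ω Ω (Fin m) (fun _ => μ) (fun _ => μ)
  have hmeas : Measurable (fun p : (Fin m → Ω) × (Fin m → Ω) => bigF B δ (e.symm p)) :=
    (measurable_bigF B hB δ).comp e.symm.measurable
  have hint : ∫⁻ p, bigF B δ (e.symm p) ∂((Measure.pi fun _ : Fin m => μ).prod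
      (Measure.pi fun _ : Fin m => μ)) ≤ ENNReal.ofReal K' := by
    refine le_trans (le_of_eq ?_) (lintegral_bigF_le μ B hB δ K hK)
    rw [← hmp.lintegral_comp hmeas]
    simp [he]
  rw [lintegral_prod _ hmeas.aemeasurable] at hint
  obtain ⟨t, ht⟩ := exists_le_lintegral (μ := (Measure.pi fun _ : Fin m => μ))
    (f := fun t => ∫⁻ t', bigF B δ (e.symm (t, t')) ∂(Measure.pi fun _ : Fin m => μ))
    (hmeas.lintegral_prod_right'.aemeasurable)
  have ht' := ht.trans hint
  refine ⟨t, fun i => ?_⟩
  set P := (Measure.pi fun _ : Fin m => μ) with hP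
  -- the function D
  set D : (Fin m → Ω) → ℝ := fun t' => ∑ j, dInd (B i) (t j, t' j) with hD
  have hDmeas : Measurable D := by
    apply Finset.measurable_sum
    intro j _
    exact (measurable_dInd (hB i)).comp (measurable_const.prodMk (measurable_pi_apply j))
  have hDbd : ∀ t', |D t'| ≤ m := by
    intro t'
    calc |D t'| ≤ ∑ j, |dInd (B i) (t j, t' j)| := Finset.abs_sum_le_sum_abs _ _
      _ ≤ ∑ _j : Fin m, (1 : ℝ) := Finset.sum_le_sum (fun j _ => abs_dInd_le _ _)
      _ = m := by simp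
  have hDint : Integrable D P := by
    refine Integrable.of_bound hDmeas.aestronglyMeasurable (m : ℝ) (ae_of_all _ ?_)
    intro t'; rw [Real.norm_eq_abs]; exact hDbd t'
  have hexpmeas : Measurable (fun t' => Real.exp (δ * D t')) :=
    Real.measurable_exp.comp (hDmeas.const_mul _)
  have hexpint : Integrable (fun t' => Real.exp (δ * D t')) P := by
    refine Integrable.of_bound hexpmeas.aestronglyMeasurable (Real.exp (δ * m))
      (ae_of_all _ ?_)
    intro t'
    rw [Real.norm_eq_abs, abs_of_pos (Real.exp_pos _)]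
    apply Real.exp_le_exp.2
    have := (abs_le.1 (hDbd t')).2
    gcongr
  have hexp : ∫ t', Real.exp (δ * D t') ∂P ≤ K' := by
    rw [integral_eq_lintegral_of_nonneg_ae (ae_of_all _ (fun _ => (Real.exp_pos _).le))
      hexpmeas.aestronglyMeasurable]
    apply ENNReal.toReal_le_of_le_ofReal hK'pos.le
    refine le_trans ?_ ht'
    apply lintegral_mono
    intro t'
    exact le_iSup (fun i => ENNReal.ofReal (Real.exp (δ * ∑ j, dInd (B i) (e.symm (t, t') j)))) i
  -- linear lower bound
  have hlin : δ * ∫ t', D t' ∂P - Real.log K' + 1 ≤ 1 := by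
    have h1 : ∀ t', δ * D t' - Real.log K' + 1 ≤ Real.exp (δ * D t') / K' := by
      intro t'
      have := Real.add_one_le_exp (δ * D t' - Real.log K')
      rwa [Real.exp_sub, Real.exp_log hK'pos] at this
    have h2 : ∫ t', (δ * D t' - Real.log K' + 1) ∂P ≤ ∫ t', Real.exp (δ * D t') / K' ∂P := by
      apply integral_mono
      · exact ((hDint.const_mul _).sub (integrable_const _)).add (integrable_const _)
      · exact hexpint.div_const _
      · exact h1
    have h3 : ∫ t', (δ * D t' - Real.log K' + 1) ∂P = δ * ∫ t', D t' ∂P - Real.log K' + 1 := by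
      have h4 : ∫ t', (δ * D t' - Real.log K' + 1) ∂P =
          ∫ t', (δ * D t' + (1 - Real.log K')) ∂P := by
        apply integral_congr_ae
        exact ae_of_all _ (fun t' => by ring)
      rw [h4, integral_add (hDint.const_mul _) (integrable_const _), integral_const_mul,
        integral_const, probReal_univ, one_smul]
      ring
    rw [h3, integral_div] at h2
    refine h2.trans ?_
    rw [div_le_one hK'pos]
    exact hexp
  -- compute ∫ D
  have hDval : ∫ t', D t' ∂P = m * μ.real (B i) - ∑ j, (B i).indicator (fun _ => (1 : ℝ)) (t j) := by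
    have h1 : ∀ j : Fin m, ∫ t' : Fin m → Ω, (B i).indicator (fun _ => (1 : ℝ)) (t' j) ∂P =
        μ.real (B i) := by
      intro j
      rw [hP, integral_comp_eval (μ := fun _ : Fin m => μ) (i := j)
        (f := (B i).indicator (fun _ => (1 : ℝ)))
        ((measurable_const.indicator (hB i)).aestronglyMeasurable)]
      rw [integral_indicator_const _ (hB i), smul_eq_mul, mul_one]
    have hii : ∀ j : Fin m, Integrable (fun t' : Fin m → Ω =>
        (B i).indicator (fun _ => (1 : ℝ)) (t' j)) P := by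
      intro j
      refine Integrable.of_bound (((measurable_const.indicator (hB i)).comp
        (measurable_pi_apply j)).aestronglyMeasurable) (1 : ℝ) (ae_of_all _ ?_)
      intro t'
      by_cases h : t' j ∈ B i <;> simp [h]
    have h2 : ∀ t', D t' = ∑ j, (B i).indicator (fun _ => (1 : ℝ)) (t' j) -
        ∑ j, (B i).indicator (fun _ => (1 : ℝ)) (t j) := by
      intro t'
      simp only [hD, dInd]
      rw [Finset.sum_sub_distrib]
    simp_rw [h2]
    rw [integral_sub (integrable_finsetSum _ (fun j _ => hii j)) (integrable_const _),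
      integral_finsetSum _ (fun j _ => hii j)]
    simp_rw [h1]
    simp
  rw [hDval] at hlin
  have hlogK' : Real.log K' = Real.log K + m * (δ ^ 2 / 2) := by
    rw [hK', Real.log_mul (by positivity) (by positivity), Real.log_pow, Real.log_exp]
  rw [hlogK'] at hlin
  have hfin : δ * (m * μ.real (B i) - ∑ j, (B i).indicator (fun _ => (1 : ℝ)) (t j)) ≤
      δ * (δ * m) := by nlinarith
  have hfin2 := le_of_mul_le_mul_left hfin hδ
  rw [one_div, ← div_eq_inv_mul, le_div_iff₀ hmR]
  nlinarith

end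

end Pool.Agent.Work.MP_07ff6b_an
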