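import Pool.Agent.Work.MP_07ff6b_an.Patterns
import Pool.Agent.Work.MP_07ff6b_an.Sampling

/-!
Sampling lemma for finite intersections of affine half spaces.
-/

open Finset MeasureTheory

namespace Pool.Agent.Work.MP_07ff6b_an

theorem exists_sample_halfspace {Ω : Type*} [MeasurableSpace Ω] (μ : Measure Ω)
    [IsProbabilityMeasure μ] {I : Type*} [Countable I]
    {V : Type*} [AddCommGroup V] [Module ℝ V] [FiniteDimensional ℝ V]
    {R : Type*} [Fintype R] [DecidableEq R]
    (ℓ : R → Ω → (V →ₗ[ℝ] ℝ)) (b : R → ℝ) (v : I → V)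
    (hmeas : ∀ r i, Measurable (fun ω => ℓ r ω (v i)))
    (d : ℕ) (hd : Module.finrank ℝ V ≤ d) {m : ℕ} (hm : 0 < m) {x : ℝ} (hx0 : 0 < x) (hx1 : x ≤ 1)
    {δ : ℝ} (hδ : 0 < δ)
    (hnum : 2 * ((d + 1) * Real.log (1 / x) + x * (2 * m * Fintype.card R)) ≤ δ ^ 2 * m) :
    ∃ t : Fin m → Ω, ∀ i, μ.real {ω | ∀ r, b r < ℓ r ω (v i)} - δ ≤
      (1 / m) * ∑ j, ({ω | ∀ r, b r < ℓ r ω (v i)} : Set Ω).indicator (fun _ => (1 : ℝ)) (t j) := by
  classical
  set B : I → Set Ω := fun i => {ω | ∀ r, b r < ℓ r ω (v i)} with hBdef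
  have hB : ∀ i, MeasurableSet (B i) := by
    intro i
    simp only [hBdef, Set.setOf_forall]
    apply MeasurableSet.iInter
    intro r
    exact measurableSet_lt measurable_const (hmeas r i)
  set Kr : ℝ := (1 / x) ^ (d + 1) * Real.exp (x * (2 * m * Fintype.card R)) with hKr
  have hKr1 : 1 ≤ Kr := by
    have h1 : (1 : ℝ) ≤ (1 / x) ^ (d + 1) := by
      apply one_le_pow₀
      rw [le_div_iff₀ hx0]; linarith
    have h2 : (1 : ℝ) ≤ Real.exp (x * (2 * m * Fintype.card R)) := by
      apply Real.one_le_exp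
      positivity
    calc (1 : ℝ) = 1 * 1 := by ring
      _ ≤ Kr := by rw [hKr]; gcongr
  set K : ℕ := ⌊Kr⌋₊ with hK
  have hK1 : 1 ≤ K := by
    rw [hK]; exact Nat.le_floor (by simpa using hKr1)
  have hKlog : Real.log K ≤ (d + 1) * Real.log (1 / x) + x * (2 * m * Fintype.card R) := by
    have h1 : Real.log K ≤ Real.log Kr := by
      apply Real.log_le_log (by exact_mod_cast hK1)
      exact Nat.floor_le (by linarith)
    refine h1.trans (le_of_eq ?_)
    rw [hKr, Real.log_mul (by positivity) (by positivity), Real.log_pow, Real.log_exp]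
    push_cast
    ring
  refine exists_sample μ B hB hm K hK1 ?_ hδ (by linarith)
  intro z
  -- patterns
  let f : ((Fin m × Bool) × R) → V →ₗ[ℝ] ℝ :=
    fun q => ℓ q.2 (if q.1.2 then (z q.1.1).2 else (z q.1.1).1)
  let bb : ((Fin m × Bool) × R) → ℝ := fun q => b q.2
  let Φ : Finset ((Fin m × Bool) × R) → (Fin m → ℝ) := fun S j =>
    (if ∀ r, ((j, true), r) ∈ S then (1 : ℝ) else 0) -
      (if ∀ r, ((j, false), r) ∈ S then (1 : ℝ) else 0)
  have hsub : Set.range (fun i => fun j => dInd (B i) (z j)) ⊆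
      ((patFam (fun j v => f j v) bb).image Φ : Finset (Fin m → ℝ)) := by
    rintro _ ⟨i, rfl⟩
    rw [Finset.coe_image]
    refine ⟨Finset.univ.filter (fun q => bb q < f q (v i)), ?_, ?_⟩
    · rw [Finset.mem_coe, mem_patFam]
      exact ⟨v i, fun q => by simp⟩
    · funext j
      simp only [Φ, Finset.mem_filter, Finset.mem_univ, true_and, f, bb, dInd, hBdef,
        Set.indicator, Set.mem_setOf_eq, if_true]
      simp
  have hfin : (Set.range (fun i => fun j => dInd (B i) (z j))).Finite :=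
    (Finset.finite_toSet _).subset hsub
  refine ⟨hfin, ?_⟩
  have h1 : (Set.range (fun i => fun j => dInd (B i) (z j))).ncard ≤
      (patFam (fun j v => f j v) bb).card := by
    calc (Set.range (fun i => fun j => dInd (B i) (z j))).ncard
        ≤ (((patFam (fun j v => f j v) bb).image Φ : Finset (Fin m → ℝ)) :
            Set (Fin m → ℝ)).ncard := Set.ncard_le_ncard hsub (Finset.finite_toSet _)
      _ = ((patFam (fun j v => f j v) bb).image Φ).card := Set.ncard_coe_finset _
      _ ≤ _ := Finset.card_image_le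
  refine h1.trans ?_
  rw [hK]
  apply Nat.le_floor
  have h2 := card_patFam_le f bb d hd hx0 hx1
  refine h2.trans (le_of_eq ?_)
  rw [hKr]
  congr 2
  simp only [Fintype.card_prod, Fintype.card_fin, Fintype.card_bool]
  push_cast
  ring

end Pool.Agent.Work.MP_07ff6b_an
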