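import Pool.Agent.Work.MP_07ff6b_an.GoodSet
import Pool.Agent.Work.MP_07ff6b_an.HalfSpace

/-!
Core theorem: from the raw hypotheses to a sample with stable phase retrieval.
-/

open MeasureTheory

namespace Pool.Agent.Work.MP_07ff6b_an

/-- numeric choice of the constants -/
lemma exists_consts (C β : ℝ) (hC : 0 < C) (hβ : 0 < β) :
    ∃ (c1 : ℝ) (N : ℕ) (δ x : ℝ) (D : ℕ), c1 = 3 / (8 * C ^ 3 * β ^ 2) / (2 * C) ∧ 0 < N ∧
      (2 : ℝ) / N ≤ 1 / 24 ∧ (2 : ℝ) / N ≤ c1 ^ 2 / 192 ∧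
      δ = c1 ^ 2 / 4 / (2 * N + 1) ^ 4 / 2 ∧ 0 < x ∧ x ≤ 1 ∧ 0 < D ∧
      ∀ n : ℕ, 0 < n → 2 * (((4 * n : ℕ) + 1 : ℝ) * Real.log (1 / x) +
        x * (2 * ((D * n : ℕ) : ℝ) * 6)) ≤ δ ^ 2 * ((D * n : ℕ) : ℝ) := by
  set c1 := 3 / (8 * C ^ 3 * β ^ 2) / (2 * C) with hc1
  have hc1p : 0 < c1 := by positivity
  obtain ⟨N, hN⟩ := exists_nat_gt (max 48 (384 / c1 ^ 2))
  have hN1 : (48 : ℝ) < N := lt_of_le_of_lt (le_max_left _ _) hN
  have hN2 : 384 / c1 ^ 2 < N := lt_of_le_of_lt (le_max_right _ _) hN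
  have hNpos : (0 : ℝ) < N := by linarith
  set δ := c1 ^ 2 / 4 / (2 * N + 1) ^ 4 / 2 with hδ
  have hδp : 0 < δ := by positivity
  set x := min 1 (δ ^ 2 / 48) with hx
  have hx0 : 0 < x := lt_min (by norm_num) (by positivity)
  have hx1 : x ≤ 1 := min_le_left _ _
  have hx2 : x ≤ δ ^ 2 / 48 := min_le_right _ _
  have hlog : 0 ≤ Real.log (1 / x) := by
    apply Real.log_nonneg
    rw [le_div_iff₀ hx0]; linarith
  obtain ⟨D, hD⟩ := exists_nat_gt (20 * Real.log (1 / x) / δ ^ 2)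
  have hDpos : (0 : ℝ) < D := lt_of_le_of_lt (by positivity) hD
  refine ⟨c1, N, δ, x, D, rfl, by exact_mod_cast hNpos, ?_, ?_, rfl, hx0, hx1,
    by exact_mod_cast hDpos, ?_⟩
  · rw [div_le_div_iff₀ hNpos (by norm_num)]; linarith
  · rw [div_lt_iff₀ (by positivity)] at hN2
    rw [div_le_div_iff₀ hNpos (by norm_num)]
    linarith
  · intro n hn
    have hnR : (1 : ℝ) ≤ n := by exact_mod_cast hn
    push_cast
    rw [div_lt_iff₀ (by positivity)] at hD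
    have h1 : (4 * (n : ℝ) + 1) * Real.log (1 / x) ≤ 5 * n * Real.log (1 / x) := by
      gcongr; linarith
    have h2 : 20 * Real.log (1 / x) * n ≤ D * δ ^ 2 * n := by
      gcongr
    have h3 : x * (2 * (D * n) * 6) ≤ δ ^ 2 / 48 * (2 * (D * n) * 6) := by
      gcongr
    nlinarith

section
variable {𝕜 : Type*} [RCLike 𝕜] {H : Type*} [NormedAddCommGroup H] [InnerProductSpace 𝕜 H]
  [FiniteDimensional 𝕜 H]
  {Ω : Type*} [MeasurableSpace Ω] {μ : Measure Ω} [IsProbabilityMeasure μ]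
  {x : Ω → H} {C K : ℝ}

/-- Sampling the cones. -/
lemma exists_sample_cones (hyp : Hyp 𝕜 μ x C K) {n : ℕ} (hn : Module.finrank 𝕜 H = n)
    {m : ℕ} (hm : 0 < m) {y : ℝ} (hy0 : 0 < y) (hy1 : y ≤ 1) {δ : ℝ} (hδ : 0 < δ)
    (hnum : 2 * (((4 * n : ℕ) + 1 : ℝ) * Real.log (1 / y) + y * (2 * (m : ℝ) * 6)) ≤ δ ^ 2 * m)
    (w : ℕ → H) (s e : ℝ) :
    ∃ t : Fin m → Ω, ∀ i : ℕ × ℕ,
      μ.real {ω | InCone s e (an 𝕜 x (w i.1) ω) ∧ InCone s e (an 𝕜 x (w i.2) ω)} - δ ≤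
      (1 / m) * ∑ j, ({ω | InCone s e (an 𝕜 x (w i.1) ω) ∧
        InCone s e (an 𝕜 x (w i.2) ω)} : Set Ω).indicator (fun _ => (1 : ℝ)) (t j) := by
  classical
  letI : Module ℝ H := Module.compHom H (algebraMap ℝ 𝕜)
  haveI : IsScalarTower ℝ 𝕜 H := ⟨fun r c h => by
    change (r • c) • h = (algebraMap ℝ 𝕜 r) • (c • h)
    rw [smul_smul, Algebra.smul_def]⟩
  haveI : FiniteDimensional ℝ H := Module.Finite.trans 𝕜 H
  have hfr : Module.finrank ℝ (H × H) ≤ 4 * n := by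
    rw [Module.finrank_prod, ← Module.finrank_mul_finrank ℝ 𝕜 H, hn]
    have := RCLike.finrank_le_two (K := 𝕜)
    nlinarith
  let φ : Ω → (H →ₗ[ℝ] 𝕜) := fun ω =>
    { toFun := fun h => an 𝕜 x h ω
      map_add' := fun a b => an_add x a b ω
      map_smul' := fun r h => by
        change an 𝕜 x ((algebraMap ℝ 𝕜 r) • h) ω = r • an 𝕜 x h ω
        rw [an_smul, Algebra.smul_def] }
  let g : Fin 3 → (𝕜 →ₗ[ℝ] ℝ) :=
    ![RCLike.reLm, e • RCLike.reLm - RCLike.imLm, e • RCLike.reLm + RCLike.imLm]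
  let pr : Bool → (H × H →ₗ[ℝ] H) := fun b => if b then LinearMap.fst ℝ H H
    else LinearMap.snd ℝ H H
  let ℓ : (Bool × Fin 3) → Ω → (H × H →ₗ[ℝ] ℝ) := fun r ω => (g r.2) ∘ₗ (φ ω) ∘ₗ (pr r.1)
  let b : (Bool × Fin 3) → ℝ := fun r => if r.2 = 0 then s else 0
  let v : ℕ × ℕ → H × H := fun i => (w i.1, w i.2)
  have hset : ∀ i : ℕ × ℕ, {ω | ∀ r, b r < ℓ r ω (v i)} =
      {ω | InCone s e (an 𝕜 x (w i.1) ω) ∧ InCone s e (an 𝕜 x (w i.2) ω)} := by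
    intro i
    ext ω
    simp only [Set.mem_ofPred_eq, Prod.forall, Bool.forall_bool, Fin.forall_fin_succ, ℓ, b, g, pr, v, φ,
      InCone, abs_lt]
    simp
    constructor
    · rintro ⟨⟨h1, h2, h3⟩, h4, h5, h6⟩
      refine ⟨⟨h4, by linarith, by linarith⟩, h1, by linarith, by linarith⟩
    · rintro ⟨⟨h4, h5, h6⟩, h1, h2, h3⟩
      refine ⟨⟨h1, by linarith, by linarith⟩, h4, by linarith, by linarith⟩
  have hmeas : ∀ r i, Measurable (fun ω => ℓ r ω (v i)) := by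
    rintro ⟨bb, k⟩ i
    have hm1 : ∀ h : H, Measurable (fun ω => g k (an 𝕜 x h ω)) := by
      intro h
      have h1 := RCLike.measurable_re.comp (hyp.meas h)
      have h2 := RCLike.measurable_im.comp (hyp.meas h)
      fin_cases k
      · exact h1
      · exact (h1.const_mul e).sub h2
      · exact (h1.const_mul e).add h2
    exact hm1 (pr bb (v i))
  have := exists_sample_halfspace μ ℓ b v hmeas (4 * n) hfr hm hy0 hy1 hδ (by
    simp only [Fintype.card_prod, Fintype.card_bool, Fintype.card_fin]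
    push_cast at hnum ⊢
    linarith)
  simp only [hset] at this
  exact this

/-- Core theorem. -/
theorem core (C β : ℝ) (hC : 0 < C) (hβ : 0 < β) {c1 : ℝ} {N : ℕ} {δ y : ℝ} {D : ℕ}
    (hc1 : c1 = 3 / (8 * C ^ 3 * β ^ 2) / (2 * C)) (hN : 0 < N)
    (hN1 : (2 : ℝ) / N ≤ 1 / 24) (hN2 : (2 : ℝ) / N ≤ c1 ^ 2 / 192)
    (hδ : δ = c1 ^ 2 / 4 / (2 * N + 1) ^ 4 / 2) (hy0 : 0 < y) (hy1 : y ≤ 1) (hD : 0 < D)
    {n : ℕ} (hn0 : 0 < n)
    (hnum : 2 * (((4 * n : ℕ) + 1 : ℝ) * Real.log (1 / y) +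
        y * (2 * ((D * n : ℕ) : ℝ) * 6)) ≤ δ ^ 2 * ((D * n : ℕ) : ℝ))
    (hyp : Hyp 𝕜 μ x C (β * Real.sqrt n)) (hn : Module.finrank 𝕜 H = n) :
    ∃ t : Fin (D * n) → Ω, ∀ a b : H, ∃ z : 𝕜, ‖z‖ = 1 ∧
      ‖a - z • b‖ ^ 2 * ((c1 ^ 3 / 96) ^ 2 * δ) ≤
        (1 / ((D * n : ℕ) : ℝ)) * ∑ j, (‖an 𝕜 x a (t j)‖ - ‖an 𝕜 x b (t j)‖) ^ 2 := by
  classical
  have hc1p : 0 < c1 := by rw [hc1]; positivity
  have hNR : (0 : ℝ) < N := by exact_mod_cast hN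
  have hδp : 0 < δ := by rw [hδ]; positivity
  have hm : 0 < D * n := Nat.mul_pos hD hn0
  have hmR : (0 : ℝ) < ((D * n : ℕ) : ℝ) := by exact_mod_cast hm
  haveI : ProperSpace H := FiniteDimensional.proper_rclike 𝕜 H
  set w : ℕ → H := TopologicalSpace.denseSeq H with hw
  have hdense : DenseRange w := TopologicalSpace.denseRange_denseSeq H
  obtain ⟨t, ht⟩ := exists_sample_cones hyp hn hm hy0 hy1 hδp hnum w (c1 / 4) (6 * (2 / N))
  refine ⟨t, fun a b => ?_⟩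
  -- minimiser
  have hcomp : IsCompact (Metric.sphere (0 : 𝕜) 1) := isCompact_sphere _ _
  have hne : (Metric.sphere (0 : 𝕜) 1).Nonempty := ⟨1, by simp⟩
  have hcont : ContinuousOn (fun z : 𝕜 => ‖a - z • b‖) (Metric.sphere (0 : 𝕜) 1) := by
    fun_prop
  obtain ⟨l0, hl0mem, hl0min⟩ := hcomp.exists_isMinOn hne hcont
  have hl0 : ‖l0‖ = 1 := by simpa using hl0mem
  refine ⟨l0, hl0, ?_⟩
  by_cases hr0 : ‖a - l0 • b‖ = 0
  · rw [hr0]
    simp only [ne_eq, OfNat.ofNat_ne_zero, not_false_eq_true, zero_pow, zero_mul]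
    positivity
  set r := ‖a - l0 • b‖ with hr
  have hrp : 0 < r := lt_of_le_of_ne (norm_nonneg _) (Ne.symm hr0)
  set ρ : 𝕜 := ((r⁻¹ : ℝ) : 𝕜) with hρ
  have hρn : ‖ρ‖ = r⁻¹ := by rw [hρ, RCLike.norm_ofReal, abs_of_pos (by positivity)]
  have hscale : ∀ z : 𝕜, ρ • a - z • (ρ • b) = ρ • (a - z • b) := by
    intro z
    rw [smul_sub, smul_comm]
  have hv : ‖ρ • a - l0 • (ρ • b)‖ = 1 := by
    rw [hscale, norm_smul, hρn]
    exact inv_mul_cancel₀ hrp.ne'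
  have hmin : ∀ z : 𝕜, ‖z‖ = 1 → 1 ≤ ‖ρ • a - z • (ρ • b)‖ := by
    intro z hz
    rw [hscale, norm_smul, hρn]
    have h1 : r ≤ ‖a - z • b‖ := hl0min (by simpa using hz)
    rw [← div_eq_inv_mul, le_div_iff₀ hrp]
    linarith
  obtain ⟨u1, v1, hmes, hlow⟩ := hyp.exists_cones hC (by positivity : 0 < 3 / (8 * C ^ 3 * β ^ 2))
    (hyp.norm_equiv hC hn hn0 hβ rfl) hc1 hN hN1 hN2 hl0 hv hmin
  -- approximation by the dense sequence
  have hKp : 0 < β * Real.sqrt n := by positivity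
  obtain ⟨i1, hi1⟩ : ∃ i, ‖u1 - w i‖ < (3 * (2 / N)) * (c1 / 2) / 4 / (β * Real.sqrt n) := by
    have := hdense.exists_dist_lt u1 (ε := (3 * (2 / N)) * (c1 / 2) / 4 / (β * Real.sqrt n))
      (by positivity)
    simpa [dist_eq_norm] using this
  obtain ⟨i2, hi2⟩ : ∃ i, ‖v1 - w i‖ < (3 * (2 / N)) * (c1 / 2) / 4 / (β * Real.sqrt n) := by
    have := hdense.exists_dist_lt v1 (ε := (3 * (2 / N)) * (c1 / 2) / 4 / (β * Real.sqrt n))
      (by positivity)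
    simpa [dist_eq_norm] using this
  have happ : ∀ (u' : H) (i : ℕ), ‖u' - w i‖ < (3 * (2 / N)) * (c1 / 2) / 4 / (β * Real.sqrt n) →
      ∀ ω, ‖an 𝕜 x u' ω - an 𝕜 x (w i) ω‖ ≤ (3 * (2 / N)) * (c1 / 2) / 4 := by
    intro u' i hi ω
    rw [← an_sub]
    refine (norm_an_le x _ ω (hyp.bd ω)).trans ?_
    rw [lt_div_iff₀ hKp] at hi
    linarith
  have he1 : 3 * (2 / (N : ℝ)) ≤ 1 := by linarith
  have he2 : 6 * (2 / (N : ℝ)) ≤ 1 := by linarith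
  have hfw : ∀ (u' : H) (i : ℕ),
      ‖u' - w i‖ < (3 * (2 / N)) * (c1 / 2) / 4 / (β * Real.sqrt n) → ∀ ω,
      InCone (c1 / 2) (3 * (2 / N)) (an 𝕜 x u' ω) →
        InCone (c1 / 4) (6 * (2 / N)) (an 𝕜 x (w i) ω) := by
    intro u' i hi ω hω
    have := hω.perturb (by positivity) (by positivity) he1 (happ u' i hi ω)
    rw [show c1 / 2 / 2 = c1 / 4 by ring, show 2 * (3 * (2 / (N : ℝ))) = 6 * (2 / N) by ring]
      at this
    exact this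
  have hbw : ∀ (u' : H) (i : ℕ),
      ‖u' - w i‖ < (3 * (2 / N)) * (c1 / 2) / 4 / (β * Real.sqrt n) → ∀ ω,
      InCone (c1 / 4) (6 * (2 / N)) (an 𝕜 x (w i) ω) →
        InCone (c1 / 8) (12 * (2 / N)) (an 𝕜 x u' ω) := by
    intro u' i hi ω hω
    have h1 := happ u' i hi ω
    rw [norm_sub_rev] at h1
    have := hω.perturb (by positivity) (by positivity) he2 (w := an 𝕜 x u' ω)
      (h1.trans (le_of_eq (by ring)))
    rw [show c1 / 4 / 2 = c1 / 8 by ring, show 2 * (6 * (2 / (N : ℝ))) = 12 * (2 / N) by ring]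
      at this
    exact this
  have hS := ht (i1, i2)
  set S : Set Ω := {ω | InCone (c1 / 4) (6 * (2 / N)) (an 𝕜 x (w (i1, i2).1) ω) ∧
      InCone (c1 / 4) (6 * (2 / N)) (an 𝕜 x (w (i1, i2).2) ω)} with hSdef
  have hSmes : 2 * δ ≤ μ.real S := by
    have h1 : 2 * δ = c1 ^ 2 / 4 / (2 * N + 1) ^ 4 := by rw [hδ]; ring
    rw [h1]
    refine hmes.trans (measureReal_mono ?_ (measure_ne_top _ _))
    rintro ω ⟨h1, h2⟩
    exact ⟨hfw u1 i1 hi1 ω h1, hfw v1 i2 hi2 ω h2⟩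
  have hcount : δ ≤ (1 / ((D * n : ℕ) : ℝ)) * ∑ j, S.indicator (fun _ => (1 : ℝ)) (t j) := by
    linarith
  -- conclude
  have hterm : ∀ j, r ^ 2 * (c1 ^ 3 / 96) ^ 2 * S.indicator (fun _ => (1 : ℝ)) (t j) ≤
      (‖an 𝕜 x a (t j)‖ - ‖an 𝕜 x b (t j)‖) ^ 2 := by
    intro j
    by_cases hj : t j ∈ S
    · rw [Set.indicator_of_mem hj, mul_one]
      have h1 := hlow (t j) (hbw u1 i1 hi1 _ hj.1) (hbw v1 i2 hi2 _ hj.2)
      rw [an_smul, an_smul, norm_mul, norm_mul, hρn, ← mul_sub, abs_mul,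
        abs_of_pos (by positivity : 0 < r⁻¹)] at h1
      have h2 : r * (c1 ^ 3 / 96) ≤ |‖an 𝕜 x a (t j)‖ - ‖an 𝕜 x b (t j)‖| := by
        rw [← div_eq_inv_mul, le_div_iff₀ hrp] at h1
        linarith
      calc r ^ 2 * (c1 ^ 3 / 96) ^ 2 = (r * (c1 ^ 3 / 96)) ^ 2 := by ring
        _ ≤ |‖an 𝕜 x a (t j)‖ - ‖an 𝕜 x b (t j)‖| ^ 2 := by gcongr
        _ = _ := sq_abs _
    · rw [Set.indicator_of_notMem hj, mul_zero]
      exact sq_nonneg _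
  calc r ^ 2 * ((c1 ^ 3 / 96) ^ 2 * δ) = r ^ 2 * (c1 ^ 3 / 96) ^ 2 * δ := by ring
    _ ≤ r ^ 2 * (c1 ^ 3 / 96) ^ 2 *
        ((1 / ((D * n : ℕ) : ℝ)) * ∑ j, S.indicator (fun _ => (1 : ℝ)) (t j)) := by gcongr
    _ = (1 / ((D * n : ℕ) : ℝ)) *
        ∑ j, r ^ 2 * (c1 ^ 3 / 96) ^ 2 * S.indicator (fun _ => (1 : ℝ)) (t j) := by
        rw [← Finset.mul_sum]; ring
    _ ≤ _ := by
        apply mul_le_mul_of_nonneg_left _ (by positivity)
        exact Finset.sum_le_sum (fun j _ => hterm j)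

end

end Pool.Agent.Work.MP_07ff6b_an
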