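import Pool.Agent.Work.MP_07ff6b_an.Analytic

/-!
The good set: pointwise algebra in `𝕜` and the pigeonhole over phases.
-/

open MeasureTheory

namespace Pool.Agent.Work.MP_07ff6b_an

section Algebra
variable {𝕜 : Type*} [RCLike 𝕜]

lemma norm_le_abs_re_add (z : 𝕜) : ‖z‖ ≤ |RCLike.re z| + |RCLike.im z| := by
  have h := RCLike.norm_sq_eq_def (z := z)
  have h1 := sq_abs (RCLike.re z)
  have h2 := sq_abs (RCLike.im z)
  apply le_of_sq_le_sq _ (by positivity)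
  nlinarith [mul_nonneg (abs_nonneg (RCLike.re z)) (abs_nonneg (RCLike.im z))]

lemma sq_sub_sq_eq (p q : 𝕜) :
    ‖p‖ ^ 2 - ‖q‖ ^ 2 = RCLike.re ((p - q) * (starRingEnd 𝕜) (p + q)) := by
  rw [RCLike.norm_sq_eq_def, RCLike.norm_sq_eq_def]
  simp only [RCLike.mul_re, map_sub, map_add, RCLike.conj_re, RCLike.conj_im]
  ring

lemma abs_mul_add_eq (p q : 𝕜) :
    |‖p‖ - ‖q‖| * (‖p‖ + ‖q‖) = |RCLike.re ((p - q) * (starRingEnd 𝕜) (p + q))| := by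
  rw [← sq_sub_sq_eq, show ‖p‖ ^ 2 - ‖q‖ ^ 2 = (‖p‖ - ‖q‖) * (‖p‖ + ‖q‖) by ring, abs_mul,
    abs_of_nonneg (by positivity : 0 ≤ ‖p‖ + ‖q‖)]

lemma norm_add_norm_le (p q : 𝕜) : ‖p‖ + ‖q‖ ≤ ‖p + q‖ + ‖p - q‖ := by
  have h1 : ‖p + p‖ = 2 * ‖p‖ := by
    rw [← two_mul, norm_mul]; simp
  have h2 : ‖q + q‖ = 2 * ‖q‖ := by
    rw [← two_mul, norm_mul]; simp
  have h3 : ‖p + p‖ ≤ ‖p + q‖ + ‖p - q‖ := by
    have : p + p = (p + q) + (p - q) := by ring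
    rw [this]; exact norm_add_le _ _
  have h4 : ‖q + q‖ ≤ ‖p + q‖ + ‖p - q‖ := by
    have : q + q = (p + q) - (p - q) := by ring
    rw [this]; exact norm_sub_le _ _
  linarith

/-- The open cone with aperture `e`, truncated at `s`. -/
def InCone (s e : ℝ) (z : 𝕜) : Prop := s < RCLike.re z ∧ |RCLike.im z| < e * RCLike.re z

/-- perturbation of the cone -/
lemma InCone.perturb {s e : ℝ} (hs : 0 < s) (he : 0 < e) (he1 : e ≤ 1) {z w : 𝕜}
    (hz : InCone s e z) (hzw : ‖z - w‖ ≤ e * s / 4) : InCone (s / 2) (2 * e) w := by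
  obtain ⟨h1, h2⟩ := hz
  have h3 : |RCLike.re (z - w)| ≤ e * s / 4 := (RCLike.abs_re_le_norm _).trans hzw
  have h4 : |RCLike.im (z - w)| ≤ e * s / 4 := (RCLike.abs_im_le_norm _).trans hzw
  rw [map_sub] at h3 h4
  have h5 := abs_le.1 h3
  have h6 := abs_le.1 h4
  have hes : e * s / 4 ≤ s / 4 := by nlinarith
  have hre : s / 2 < RCLike.re w := by linarith [h5.2]
  refine ⟨hre, ?_⟩
  have h7 : |RCLike.im w| ≤ |RCLike.im z| + e * s / 4 := by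
    have : |RCLike.im w| ≤ |RCLike.im z| + |RCLike.im w - RCLike.im z| := by
      have := abs_add_le (RCLike.im z) (RCLike.im w - RCLike.im z)
      simpa using this
    rw [abs_sub_comm] at this
    linarith
  have h8 : RCLike.re z ≤ RCLike.re w + e * s / 4 := by linarith [h5.2]
  have h9 : e * RCLike.re z ≤ e * RCLike.re w + e * (e * s / 4) := by nlinarith
  have h10 : e * (e * s / 4) ≤ e * s / 4 := by
    have : 0 < e * s / 4 := by positivity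
    nlinarith
  have h11 : e * s / 2 < e * RCLike.re w := by nlinarith
  linarith

/-- unit phases close to `l` produce elements of the cone -/
lemma inCone_of_phase {e s : ℝ} (he : 0 < e) (he1 : e ≤ 1 / 2) {Z l : 𝕜} (hs : 0 < s)
    (hZ : s < ‖Z‖) (hl : ‖l‖ = 1) (hd : ‖Z / (‖Z‖ : 𝕜) - l‖ ≤ e) :
    InCone (s / 2) (3 * e) ((starRingEnd 𝕜) l * Z) := by
  have hZpos : 0 < ‖Z‖ := hs.trans hZ
  have hZne : ((‖Z‖ : ℝ) : 𝕜) ≠ 0 := by
    rw [Ne, RCLike.ofReal_eq_zero]; exact hZpos.ne'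
  have h1 : (starRingEnd 𝕜) l * Z - ((‖Z‖ : ℝ) : 𝕜) =
      ((‖Z‖ : ℝ) : 𝕜) * ((starRingEnd 𝕜) l * (Z / (‖Z‖ : 𝕜) - l)) := by
    have h2 : (starRingEnd 𝕜) l * l = 1 := by
      rw [RCLike.conj_mul, hl]; simp
    have h3 : ((‖Z‖ : ℝ) : 𝕜) * (Z / (‖Z‖ : 𝕜)) = Z := by
      field_simp
    calc (starRingEnd 𝕜) l * Z - ((‖Z‖ : ℝ) : 𝕜)
        = (starRingEnd 𝕜) l * Z - ((‖Z‖ : ℝ) : 𝕜) * 1 := by ring
      _ = (starRingEnd 𝕜) l * (((‖Z‖ : ℝ) : 𝕜) * (Z / (‖Z‖ : 𝕜))) -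
            ((‖Z‖ : ℝ) : 𝕜) * ((starRingEnd 𝕜) l * l) := by rw [h2, h3]
      _ = _ := by ring
  have h4 : ‖(starRingEnd 𝕜) l * Z - ((‖Z‖ : ℝ) : 𝕜)‖ ≤ e * ‖Z‖ := by
    rw [h1, norm_mul, norm_mul, RCLike.norm_conj, hl, RCLike.norm_ofReal,
      abs_of_pos hZpos, one_mul, mul_comm]
    gcongr
  have h5 := (RCLike.abs_re_le_norm _).trans h4
  have h6 := (RCLike.abs_im_le_norm _).trans h4
  rw [map_sub, RCLike.ofReal_re] at h5
  rw [map_sub, RCLike.ofReal_im, sub_zero] at h6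
  have h7 := abs_le.1 h5
  have hre : (1 - e) * ‖Z‖ ≤ RCLike.re ((starRingEnd 𝕜) l * Z) := by linarith [h7.1]
  have hhalf : (1 / 2) * ‖Z‖ ≤ RCLike.re ((starRingEnd 𝕜) l * Z) := by nlinarith
  constructor
  · linarith
  · calc |RCLike.im ((starRingEnd 𝕜) l * Z)| ≤ e * ‖Z‖ := h6
      _ ≤ e * (2 * RCLike.re ((starRingEnd 𝕜) l * Z)) := by
          apply mul_le_mul_of_nonneg_left _ he.le; linarith
      _ < 3 * e * RCLike.re ((starRingEnd 𝕜) l * Z) := by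
          have : 0 < RCLike.re ((starRingEnd 𝕜) l * Z) := by linarith
          nlinarith

/-- If both rotated values lie in the cone, the real part of the product is large. -/
lemma re_lower {e s g0 : ℝ} (hs : 0 < s) (he : 0 < e) (he1 : e ≤ 1 / 2)
    (he2 : e ≤ g0 / 8) {U V l l' : 𝕜} (hl : ‖l‖ = 1) (hl' : ‖l'‖ = 1)
    (hg : g0 ≤ |RCLike.re (l' * (starRingEnd 𝕜) l)|)
    (hU : InCone s e ((starRingEnd 𝕜) l * U)) (hV : InCone s e ((starRingEnd 𝕜) l' * V)) :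
    g0 / 2 * (RCLike.re ((starRingEnd 𝕜) l * U) * RCLike.re ((starRingEnd 𝕜) l' * V)) ≤
      |RCLike.re (V * (starRingEnd 𝕜) U)| := by
  set z1 := (starRingEnd 𝕜) l * U with hz1
  set z2 := (starRingEnd 𝕜) l' * V with hz2
  set g := l' * (starRingEnd 𝕜) l with hgdef
  have hll : l * (starRingEnd 𝕜) l = 1 := by
    rw [RCLike.mul_conj, hl]; simp
  have hll' : l' * (starRingEnd 𝕜) l' = 1 := by
    rw [RCLike.mul_conj, hl']; simp
  have hprod : V * (starRingEnd 𝕜) U = g * (z2 * (starRingEnd 𝕜) z1) := by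
    rw [hz1, hz2, hgdef, map_mul, RCLike.conj_conj]
    calc V * (starRingEnd 𝕜) U = (l' * (starRingEnd 𝕜) l') * (l * (starRingEnd 𝕜) l) *
          (V * (starRingEnd 𝕜) U) := by rw [hll, hll']; ring
      _ = _ := by ring
  have hgn : ‖g‖ = 1 := by rw [hgdef, norm_mul, RCLike.norm_conj, hl, hl', one_mul]
  have him : |RCLike.im g| ≤ 1 := by rw [← hgn]; exact RCLike.abs_im_le_norm g
  obtain ⟨ha1, hb1⟩ := hU
  obtain ⟨ha2, hb2⟩ := hV
  rw [hprod, RCLike.mul_re g]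
  set a1 := RCLike.re z1
  set b1 := RCLike.im z1
  set a2 := RCLike.re z2
  set b2 := RCLike.im z2
  have hre : RCLike.re (z2 * (starRingEnd 𝕜) z1) = a2 * a1 + b2 * b1 := by
    rw [RCLike.mul_re, RCLike.conj_re, RCLike.conj_im]; ring
  have himm : RCLike.im (z2 * (starRingEnd 𝕜) z1) = b2 * a1 - a2 * b1 := by
    rw [RCLike.mul_im, RCLike.conj_re, RCLike.conj_im]; ring
  rw [hre, himm]
  have ha1p : 0 < a1 := hs.trans ha1
  have ha2p : 0 < a2 := hs.trans ha2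
  have hP : 0 < a1 * a2 := mul_pos ha1p ha2p
  have hbb : |b2 * b1| ≤ (1 / 4) * (a1 * a2) := by
    rw [abs_mul]
    have h1 : |b2| ≤ (1 / 2) * a2 := hb2.le.trans (by nlinarith)
    have h2 : |b1| ≤ (1 / 2) * a1 := hb1.le.trans (by nlinarith)
    calc |b2| * |b1| ≤ ((1 / 2) * a2) * ((1 / 2) * a1) := by gcongr
      _ = _ := by ring
  have hbb' : |b2 * a1 - a2 * b1| ≤ 2 * e * (a1 * a2) := by
    have h1 : |b2 * a1 - a2 * b1| ≤ |b2 * a1| + |a2 * b1| := abs_sub _ _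
    rw [abs_mul, abs_mul, abs_of_pos ha1p, abs_of_pos ha2p] at h1
    have h2 : |b2| * a1 ≤ (e * a2) * a1 := by gcongr
    have h3 : a2 * |b1| ≤ a2 * (e * a1) := by gcongr
    calc _ ≤ _ := h1
      _ ≤ (e * a2) * a1 + a2 * (e * a1) := add_le_add h2 h3
      _ = _ := by ring
  have hmain : |RCLike.re g * (a2 * a1 + b2 * b1)| - |RCLike.im g * (b2 * a1 - a2 * b1)| ≤
      |RCLike.re g * (a2 * a1 + b2 * b1) - RCLike.im g * (b2 * a1 - a2 * b1)| :=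
    abs_sub_abs_le_abs_sub _ _
  refine le_trans ?_ hmain
  have hpos : 3 / 4 * (a1 * a2) ≤ a2 * a1 + b2 * b1 := by
    have := (abs_le.1 hbb).1
    linarith
  have hg0 : 0 < g0 := by linarith
  have h1 : g0 * (3 / 4 * (a1 * a2)) ≤ |RCLike.re g * (a2 * a1 + b2 * b1)| := by
    rw [abs_mul, abs_of_nonneg (a := a2 * a1 + b2 * b1) (by linarith [hP])]
    gcongr
  have h2 : |RCLike.im g * (b2 * a1 - a2 * b1)| ≤ g0 / 4 * (a1 * a2) := by
    rw [abs_mul]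
    calc |RCLike.im g| * |b2 * a1 - a2 * b1| ≤ 1 * (2 * e * (a1 * a2)) := by gcongr
      _ ≤ g0 / 4 * (a1 * a2) := by
          rw [one_mul]; gcongr; linarith
  linarith

lemma norm_le_of_inCone {s e : ℝ} (hs : 0 < s) (he1 : e ≤ 1 / 2) {l U : 𝕜} (hl : ‖l‖ = 1)
    (hU : InCone s e ((starRingEnd 𝕜) l * U)) :
    ‖U‖ ≤ 3 / 2 * RCLike.re ((starRingEnd 𝕜) l * U) := by
  have h1 : ‖U‖ = ‖(starRingEnd 𝕜) l * U‖ := by
    rw [norm_mul, RCLike.norm_conj, hl, one_mul]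
  rw [h1]
  have h2 := norm_le_abs_re_add ((starRingEnd 𝕜) l * U)
  obtain ⟨h3, h4⟩ := hU
  rw [abs_of_pos (hs.trans h3)] at h2
  have : e * RCLike.re ((starRingEnd 𝕜) l * U) ≤ 1 / 2 * RCLike.re ((starRingEnd 𝕜) l * U) := by
    have := hs.trans h3
    gcongr
  linarith

/-- Pointwise lower bound. -/
lemma pointwise_lower {e s g0 : ℝ} (hs : 0 < s) (he : 0 < e) (he1 : e ≤ 1 / 2)
    (he2 : e ≤ g0 / 8) {p q l l' : 𝕜} (hl : ‖l‖ = 1) (hl' : ‖l'‖ = 1)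
    (hg : g0 ≤ |RCLike.re (l' * (starRingEnd 𝕜) l)|)
    (hU : InCone s e ((starRingEnd 𝕜) l * (p + q)))
    (hV : InCone s e ((starRingEnd 𝕜) l' * (p - q))) :
    g0 * s / 6 ≤ |‖p‖ - ‖q‖| := by
  have h1 := re_lower hs he he1 he2 hl hl' hg hU hV
  rw [← abs_mul_add_eq] at h1
  have h2 := norm_le_of_inCone hs he1 hl hU
  have h3 := norm_le_of_inCone hs he1 hl' hV
  have h4 := norm_add_norm_le p q
  have ha1 := hU.1
  have ha2 := hV.1
  set a1 := RCLike.re ((starRingEnd 𝕜) l * (p + q))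
  set a2 := RCLike.re ((starRingEnd 𝕜) l' * (p - q))
  have hg0 : 0 < g0 := by linarith
  by_contra hcon
  push Not at hcon
  have h5 : |‖p‖ - ‖q‖| * (‖p‖ + ‖q‖) ≤ (g0 * s / 6) * (3 / 2 * (a1 + a2)) := by
    have : ‖p‖ + ‖q‖ ≤ 3 / 2 * (a1 + a2) := by linarith
    have h0 : 0 ≤ |‖p‖ - ‖q‖| := abs_nonneg _
    have h00 : 0 ≤ ‖p‖ + ‖q‖ := by positivity
    have : |‖p‖ - ‖q‖| * (‖p‖ + ‖q‖) ≤ (g0 * s / 6) * (‖p‖ + ‖q‖) := by gcongr
    refine this.trans ?_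
    have : 0 < g0 * s / 6 := by positivity
    gcongr
  have h6 : s * (a1 + a2) < 2 * (a1 * a2) := by
    have h7 : s * a1 < a1 * a2 := by nlinarith
    have h8 : s * a2 < a1 * a2 := by nlinarith
    linarith
  have h9 : g0 * (s * (a1 + a2)) < g0 * (2 * (a1 * a2)) := by gcongr
  nlinarith

/-- phases in the same cell are close -/
lemma phase_close {N : ℕ} (hN : 0 < N) {z w : 𝕜}
    (h1 : ⌊(RCLike.re z + 1) * N⌋ = ⌊(RCLike.re w + 1) * N⌋)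
    (h2 : ⌊(RCLike.im z + 1) * N⌋ = ⌊(RCLike.im w + 1) * N⌋) : ‖z - w‖ ≤ 2 / N := by
  have hNR : (0 : ℝ) < N := by exact_mod_cast hN
  have key : ∀ a b : ℝ, ⌊(a + 1) * N⌋ = ⌊(b + 1) * N⌋ → |a - b| ≤ 1 / N := by
    intro a b hab
    have := Int.abs_sub_lt_one_of_floor_eq_floor hab
    rw [show (a + 1) * N - (b + 1) * N = (a - b) * N by ring, abs_mul,
      abs_of_pos hNR] at this
    rw [le_div_iff₀ hNR]; exact this.le
  have h3 := key _ _ h1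
  have h4 := key _ _ h2
  have h5 := norm_le_abs_re_add (z - w)
  rw [map_sub, map_sub] at h5
  have : (2 : ℝ) / N = 1 / N + 1 / N := by ring
  rw [this]
  linarith

end Algebra

section Good
variable {𝕜 : Type*} [RCLike 𝕜] {H : Type*} [NormedAddCommGroup H] [InnerProductSpace 𝕜 H]
  {Ω : Type*} [MeasurableSpace Ω] {μ : Measure Ω} [IsProbabilityMeasure μ]
  {x : Ω → H} {C K : ℝ}

/-- Paley-Zygmund type bound: `c0` is the constant in the norm equivalence. -/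
lemma Hyp.measure_good (hyp : Hyp 𝕜 μ x C K) (hC : 0 < C) {c0 : ℝ} (hc0 : 0 < c0)
    (hequiv : ∀ h, c0 * ‖h‖ ≤ ∫ t, ‖an 𝕜 x h t‖ ∂μ) {a b : H} {l0 : 𝕜} (hl0 : ‖l0‖ = 1)
    (hv : ‖a - l0 • b‖ = 1) (hmin : ∀ z : 𝕜, ‖z‖ = 1 → 1 ≤ ‖a - z • b‖) {c1 : ℝ}
    (hc1 : c1 = c0 / (2 * C)) :
    c1 ^ 2 / 4 ≤ μ.real {t | c1 < |‖an 𝕜 x a t‖ - ‖an 𝕜 x b t‖| ∧
      ‖an 𝕜 x (a - l0 • b) t‖ ≤ 2 / c1} := by
  have hc1p : 0 < c1 := by rw [hc1]; positivity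
  set X : Ω → ℝ := fun t => |‖an 𝕜 x a t‖ - ‖an 𝕜 x b t‖| with hX
  set v := a - l0 • b with hvdef
  set A : Set Ω := {t | c1 < |‖an 𝕜 x a t‖ - ‖an 𝕜 x b t‖| ∧
      ‖an 𝕜 x v t‖ ≤ 2 / c1} with hA
  have hXle : ∀ t, X t ≤ ‖an 𝕜 x v t‖ := by
    intro t
    simp only [hX, hvdef, an_sub, an_smul]
    have h1 : ‖an 𝕜 x b t‖ = ‖l0 * an 𝕜 x b t‖ := by rw [norm_mul, hl0, one_mul]
    rw [h1]
    exact abs_norm_sub_norm_le _ _
  have hAm : MeasurableSet A := by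
    apply MeasurableSet.inter
    · exact measurableSet_lt measurable_const ((hyp.measN a).sub (hyp.measN b)).abs
    · exact measurableSet_le (hyp.measN v) measurable_const
  have hpt : ∀ t, X t ≤ c1 + (c1 / 2) * ‖an 𝕜 x v t‖ ^ 2 +
      A.indicator (fun _ => 2 / c1) t := by
    intro t
    by_cases h1 : X t ≤ c1
    · have : 0 ≤ A.indicator (fun _ => 2 / c1) t :=
        Set.indicator_nonneg (fun _ _ => by positivity) t
      have : 0 ≤ (c1 / 2) * ‖an 𝕜 x v t‖ ^ 2 := by positivity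
      linarith
    push Not at h1
    by_cases h2 : ‖an 𝕜 x v t‖ ≤ 2 / c1
    · have h3 : t ∈ A := ⟨h1, h2⟩
      rw [Set.indicator_of_mem h3]
      have := hXle t
      have : 0 ≤ (c1 / 2) * ‖an 𝕜 x v t‖ ^ 2 := by positivity
      linarith
    · push Not at h2
      have h4 : ‖an 𝕜 x v t‖ ≤ (c1 / 2) * ‖an 𝕜 x v t‖ ^ 2 := by
        have h5 : 1 < (c1 / 2) * ‖an 𝕜 x v t‖ := by
          rw [div_lt_iff₀ hc1p] at h2
          linarith
        nlinarith [norm_nonneg (an 𝕜 x v t)]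
      have : 0 ≤ A.indicator (fun _ => 2 / c1) t :=
        Set.indicator_nonneg (fun _ _ => by positivity) t
      have := hXle t
      linarith
  have hXint : Integrable X μ := ((hyp.integrable_norm a).sub (hyp.integrable_norm b)).abs
  have hindint : Integrable (A.indicator (fun _ => 2 / c1)) μ :=
    (integrable_const _).indicator hAm
  have h1 : ∫ t, X t ∂μ ≤ c1 + (c1 / 2) + 2 / c1 * μ.real A := by
    calc ∫ t, X t ∂μ ≤ ∫ t, (c1 + (c1 / 2) * ‖an 𝕜 x v t‖ ^ 2 +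
          A.indicator (fun _ => 2 / c1) t) ∂μ := by
          apply integral_mono hXint
          · exact ((integrable_const _).add ((hyp.integrable_sq v).const_mul _)).add hindint
          · exact hpt
      _ = c1 + (c1 / 2) + 2 / c1 * μ.real A := by
          have e1 := integral_add (μ := μ) (f := fun t => c1 + (c1 / 2) * ‖an 𝕜 x v t‖ ^ 2)
            (g := A.indicator (fun _ => 2 / c1))
            ((integrable_const _).add ((hyp.integrable_sq v).const_mul _)) hindint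
          have e2 := integral_add (μ := μ) (f := fun _ => c1)
            (g := fun t => (c1 / 2) * ‖an 𝕜 x v t‖ ^ 2)
            (integrable_const _) ((hyp.integrable_sq v).const_mul _)
          rw [e1, e2, integral_const, integral_const_mul, hyp.integral_sq v, hv, probReal_univ,
            integral_indicator_const _ hAm, one_smul, smul_eq_mul]
          ring
  have h2 : c0 ≤ C * ∫ t, X t ∂μ := by
    apply hyp.spr1_real hC
    intro z hz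
    have := hequiv (a - z • b)
    have h3 := hmin z hz
    nlinarith
  have h3 : 2 * c1 ≤ ∫ t, X t ∂μ := by
    rw [hc1]
    rw [show 2 * (c0 / (2 * C)) = c0 / C by field_simp, div_le_iff₀ hC]
    linarith
  have h4 : c1 / 2 ≤ 2 / c1 * μ.real A := by linarith
  have h5 : c1 / 2 * (c1 / 2) ≤ (2 / c1 * μ.real A) * (c1 / 2) := by gcongr
  have h6 : (2 / c1 * μ.real A) * (c1 / 2) = μ.real A := by
    field_simp
  rw [h6] at h5
  linarith

/-- Main lemma: existence of the two rotated vectors. -/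
theorem Hyp.exists_cones (hyp : Hyp 𝕜 μ x C K) (hC : 0 < C) {c0 : ℝ} (hc0 : 0 < c0)
    (hequiv : ∀ h, c0 * ‖h‖ ≤ ∫ t, ‖an 𝕜 x h t‖ ∂μ) {c1 : ℝ}
    (hc1 : c1 = c0 / (2 * C)) {N : ℕ} (hN : 0 < N) (hN1 : (2 : ℝ) / N ≤ 1 / 24)
    (hN2 : (2 : ℝ) / N ≤ c1 ^ 2 / 192) {a b : H} {l0 : 𝕜} (hl0 : ‖l0‖ = 1)
    (hv : ‖a - l0 • b‖ = 1) (hmin : ∀ z : 𝕜, ‖z‖ = 1 → 1 ≤ ‖a - z • b‖) :
    ∃ u1 v1 : H, c1 ^ 2 / 4 / (2 * N + 1) ^ 4 ≤ μ.real
        {t | InCone (c1 / 2) (3 * (2 / N)) (an 𝕜 x u1 t) ∧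
          InCone (c1 / 2) (3 * (2 / N)) (an 𝕜 x v1 t)} ∧
      ∀ t, InCone (c1 / 8) (12 * (2 / N)) (an 𝕜 x u1 t) →
        InCone (c1 / 8) (12 * (2 / N)) (an 𝕜 x v1 t) →
        c1 ^ 3 / 96 ≤ |‖an 𝕜 x a t‖ - ‖an 𝕜 x b t‖| := by
  classical
  have hc1p : 0 < c1 := by rw [hc1]; positivity
  have hNR : (0 : ℝ) < N := by exact_mod_cast hN
  have hmes := hyp.measure_good hC hc0 hequiv hl0 hv hmin hc1
  set u := a + l0 • b with hu
  set v := a - l0 • b with hvdef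
  set A : Set Ω := {t | c1 < |‖an 𝕜 x a t‖ - ‖an 𝕜 x b t‖| ∧
      ‖an 𝕜 x v t‖ ≤ 2 / c1} with hA
  -- p and q
  have hpq : ∀ t, |‖an 𝕜 x a t‖ - ‖an 𝕜 x b t‖| =
      |‖an 𝕜 x a t‖ - ‖l0 * an 𝕜 x b t‖| := by
    intro t; rw [norm_mul, hl0, one_mul]
  have hut : ∀ t, an 𝕜 x u t = an 𝕜 x a t + l0 * an 𝕜 x b t := by
    intro t; rw [hu, an_add, an_smul]
  have hvt : ∀ t, an 𝕜 x v t = an 𝕜 x a t - l0 * an 𝕜 x b t := by
    intro t; rw [hvdef, an_sub, an_smul]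
  -- properties on A
  have hAprop : ∀ t ∈ A, c1 < ‖an 𝕜 x u t‖ ∧ c1 < ‖an 𝕜 x v t‖ ∧
      c1 ^ 2 / 2 * (‖an 𝕜 x u t‖ * ‖an 𝕜 x v t‖) <
        |RCLike.re (an 𝕜 x v t * (starRingEnd 𝕜) (an 𝕜 x u t))| := by
    intro t ht
    obtain ⟨h1, h2⟩ := ht
    rw [hpq t] at h1
    have h3 := abs_mul_add_eq (an 𝕜 x a t) (l0 * an 𝕜 x b t)
    rw [← hut, ← hvt] at h3
    set p := an 𝕜 x a t
    set q := l0 * an 𝕜 x b t
    set U := an 𝕜 x u t
    set V := an 𝕜 x v t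
    have hUpq : U = p + q := hut t
    have hVpq : V = p - q := hvt t
    have hUle : ‖U‖ ≤ ‖p‖ + ‖q‖ := by rw [hUpq]; exact norm_add_le _ _
    have hVle : ‖V‖ ≤ ‖p‖ + ‖q‖ := by rw [hVpq]; exact norm_sub_le _ _
    have hVX : c1 < ‖V‖ := by
      refine lt_of_lt_of_le h1 ?_
      rw [hVpq]; exact abs_norm_sub_norm_le _ _
    have hpqpos : 0 < ‖p‖ + ‖q‖ := by linarith
    have h4 : c1 * (‖p‖ + ‖q‖) < |RCLike.re (V * (starRingEnd 𝕜) U)| := by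
      rw [← h3]; gcongr
    have h5 : |RCLike.re (V * (starRingEnd 𝕜) U)| ≤ ‖V‖ * ‖U‖ := by
      refine (RCLike.abs_re_le_norm _).trans ?_
      rw [norm_mul, RCLike.norm_conj]
    have hUpos : c1 < ‖U‖ := by
      have h6 : c1 * ‖V‖ < ‖V‖ * ‖U‖ := by
        calc c1 * ‖V‖ ≤ c1 * (‖p‖ + ‖q‖) := by gcongr
          _ < _ := h4
          _ ≤ _ := h5
      have hVpos : 0 < ‖V‖ := hc1p.trans hVX
      nlinarith
    refine ⟨hUpos, hVX, ?_⟩
    have h7 : c1 ^ 2 / 2 * (‖U‖ * ‖V‖) ≤ c1 * ‖U‖ := by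
      have h8 : c1 / 2 * ‖V‖ ≤ 1 := by
        rw [le_div_iff₀ hc1p] at h2
        linarith
      have h9 : 0 < ‖U‖ := hc1p.trans hUpos
      have : c1 ^ 2 / 2 * (‖U‖ * ‖V‖) = (c1 * ‖U‖) * (c1 / 2 * ‖V‖) := by ring
      rw [this]
      calc (c1 * ‖U‖) * (c1 / 2 * ‖V‖) ≤ (c1 * ‖U‖) * 1 := by gcongr
        _ = _ := mul_one _
    calc c1 ^ 2 / 2 * (‖U‖ * ‖V‖) ≤ c1 * ‖U‖ := h7
      _ ≤ c1 * (‖p‖ + ‖q‖) := by gcongr
      _ < _ := h4
  -- cells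
  let ph : 𝕜 → 𝕜 := fun z => z / ((‖z‖ : ℝ) : 𝕜)
  have hph : ∀ z : 𝕜, z ≠ 0 → ‖ph z‖ = 1 := by
    intro z hz
    simp only [ph, norm_div, RCLike.norm_ofReal, abs_norm]
    exact div_self (norm_ne_zero_iff.2 hz)
  let cell : 𝕜 → ℤ × ℤ := fun z => (⌊(RCLike.re (ph z) + 1) * N⌋, ⌊(RCLike.im (ph z) + 1) * N⌋)
  let G : Ω → (ℤ × ℤ) × (ℤ × ℤ) := fun t => (cell (an 𝕜 x u t), cell (an 𝕜 x v t))
  let I : Finset ℤ := Finset.Icc 0 (2 * N)
  have hIcard : I.card = 2 * N + 1 := by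
    simp only [I, Int.card_Icc]; omega
  have hcell : ∀ z : 𝕜, z ≠ 0 → cell z ∈ I ×ˢ I := by
    intro z hz
    have h1 := RCLike.abs_re_le_norm (ph z)
    have h2 := RCLike.abs_im_le_norm (ph z)
    rw [hph z hz] at h1 h2
    have key : ∀ r : ℝ, |r| ≤ 1 → ⌊(r + 1) * N⌋ ∈ I := by
      intro r hr
      have := abs_le.1 hr
      simp only [I, Finset.mem_Icc]
      constructor
      · apply Int.floor_nonneg.2
        apply mul_nonneg _ hNR.le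
        linarith
      · rw [Int.floor_le_iff]
        push_cast
        nlinarith
    exact Finset.mem_product.2 ⟨key _ h1, key _ h2⟩
  let J : Finset ((ℤ × ℤ) × (ℤ × ℤ)) := (I ×ˢ I) ×ˢ (I ×ˢ I)
  have hJcard : (J.card : ℝ) = (2 * N + 1) ^ 4 := by
    simp only [J, Finset.card_product, hIcard]
    push_cast
    ring
  have hAsub : A ⊆ ⋃ c ∈ J, A ∩ G ⁻¹' {c} := by
    intro t ht
    obtain ⟨h1, h2, _⟩ := hAprop t ht
    have h3 : an 𝕜 x u t ≠ 0 := norm_pos_iff.1 (hc1p.trans h1)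
    have h4 : an 𝕜 x v t ≠ 0 := norm_pos_iff.1 (hc1p.trans h2)
    simp only [Set.mem_iUnion]
    exact ⟨G t, Finset.mem_product.2 ⟨hcell _ h3, hcell _ h4⟩, ht, rfl⟩
  have hsum : μ.real A ≤ ∑ c ∈ J, μ.real (A ∩ G ⁻¹' {c}) := by
    calc μ.real A ≤ μ.real (⋃ c ∈ J, A ∩ G ⁻¹' {c}) :=
          measureReal_mono hAsub (measure_ne_top _ _)
      _ ≤ _ := measureReal_biUnion_finset_le _ _
  have hJne : J.Nonempty := by
    have : (0 : ℤ) ∈ I := by simp [I]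
    exact ⟨((0, 0), (0, 0)), by simp [J, this]⟩
  obtain ⟨c, hcJ, hc⟩ : ∃ c ∈ J, c1 ^ 2 / 4 / (2 * N + 1) ^ 4 ≤ μ.real (A ∩ G ⁻¹' {c}) := by
    apply Finset.exists_le_of_sum_le hJne
    rw [Finset.sum_const, nsmul_eq_mul, hJcard]
    refine le_trans (le_of_eq ?_) (hmes.trans hsum)
    field_simp
  have hcpos : 0 < μ.real (A ∩ G ⁻¹' {c}) := lt_of_lt_of_le (by positivity) hc
  have hne : (A ∩ G ⁻¹' {c}).Nonempty := by
    by_contra hcon
    rw [Set.not_nonempty_iff_eq_empty] at hcon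
    rw [hcon] at hcpos
    simp at hcpos
  obtain ⟨t0, ht0A, ht0G⟩ := hne
  obtain ⟨hU0, hV0, hUV0⟩ := hAprop t0 ht0A
  set l := ph (an 𝕜 x u t0) with hl
  set l' := ph (an 𝕜 x v t0) with hl'
  have hU0ne : an 𝕜 x u t0 ≠ 0 := norm_pos_iff.1 (hc1p.trans hU0)
  have hV0ne : an 𝕜 x v t0 ≠ 0 := norm_pos_iff.1 (hc1p.trans hV0)
  have hl1 : ‖l‖ = 1 := hph _ hU0ne
  have hl1' : ‖l'‖ = 1 := hph _ hV0ne
  have hg : c1 ^ 2 / 2 ≤ |RCLike.re (l' * (starRingEnd 𝕜) l)| := by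
    set U0 := an 𝕜 x u t0
    set V0 := an 𝕜 x v t0
    have hUp : 0 < ‖U0‖ := norm_pos_iff.2 hU0ne
    have hVp : 0 < ‖V0‖ := norm_pos_iff.2 hV0ne
    have h1 : V0 * (starRingEnd 𝕜) U0 =
        ((‖U0‖ * ‖V0‖ : ℝ) : 𝕜) * (l' * (starRingEnd 𝕜) l) := by
      simp only [hl, hl', ph, map_div₀, RCLike.conj_ofReal]
      have h2 : ((‖U0‖ : ℝ) : 𝕜) ≠ 0 := by rw [Ne, RCLike.ofReal_eq_zero]; exact hUp.ne'
      have h3 : ((‖V0‖ : ℝ) : 𝕜) ≠ 0 := by rw [Ne, RCLike.ofReal_eq_zero]; exact hVp.ne'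
      push_cast
      field_simp
    rw [h1, RCLike.re_ofReal_mul, abs_mul, abs_of_pos (by positivity)] at hUV0
    have h4 : 0 < ‖U0‖ * ‖V0‖ := by positivity
    have h5 : ‖U0‖ * ‖V0‖ * (c1 ^ 2 / 2) <
        ‖U0‖ * ‖V0‖ * |RCLike.re (l' * (starRingEnd 𝕜) l)| := by
      calc _ = c1 ^ 2 / 2 * (‖U0‖ * ‖V0‖) := by ring
        _ < _ := hUV0
    exact (lt_of_mul_lt_mul_left h5 h4.le).le
  refine ⟨(starRingEnd 𝕜) l • u, (starRingEnd 𝕜) l' • v, ?_, ?_⟩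
  · refine hc.trans (measureReal_mono ?_ (measure_ne_top _ _))
    rintro t ⟨htA, htG⟩
    obtain ⟨h1, h2, _⟩ := hAprop t htA
    have hGeq : G t = G t0 := by
      have h3 : G t = c := htG
      have h4 : G t0 = c := ht0G
      rw [h3, h4]
    simp only [G, Prod.mk.injEq, cell] at hGeq
    obtain ⟨⟨e1, e2⟩, ⟨e3, e4⟩⟩ := hGeq
    have h5 : ‖ph (an 𝕜 x u t) - l‖ ≤ 2 / N := phase_close hN e1 e2
    have h6 : ‖ph (an 𝕜 x v t) - l'‖ ≤ 2 / N := phase_close hN e3 e4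
    refine ⟨?_, ?_⟩
    · rw [an_smul]
      exact inCone_of_phase (by positivity) (by linarith) hc1p h1 hl1 h5
    · rw [an_smul]
      exact inCone_of_phase (by positivity) (by linarith) hc1p h2 hl1' h6
  · intro t h1 h2
    rw [an_smul] at h1 h2
    rw [hut t] at h1
    rw [hvt t] at h2
    rw [hpq t]
    have := pointwise_lower (s := c1 / 8) (e := 12 * (2 / N)) (g0 := c1 ^ 2 / 2) (by positivity)
      (by positivity) (by linarith) (by linarith) hl1 hl1' hg h1 h2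
    refine le_trans (le_of_eq ?_) this
    ring

end Good

end Pool.Agent.Work.MP_07ff6b_an
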