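import Mathlib

/-!
Number of patterns cut out by affine half spaces (Sauer-Shelah).
-/

open Finset

namespace Pool.Agent.Work.MP_07ff6b_an

/-- The family of index sets cut out of `J` by the affine inequalities `b j < ℓ j v`, `v : V`. -/
noncomputable def patFam {V J : Type*} [Fintype J] [DecidableEq J]
    (f : J → V → ℝ) (b : J → ℝ) : Finset (Finset J) := by
  classical
  exact Finset.univ.filter (fun S => ∃ v : V, ∀ j, j ∈ S ↔ b j < f j v)

lemma mem_patFam {V J : Type*} [Fintype J] [DecidableEq J]
    (f : J → V → ℝ) (b : J → ℝ) (S : Finset J) :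
    S ∈ patFam f b ↔ ∃ v : V, ∀ j, j ∈ S ↔ b j < f j v := by
  classical
  simp [patFam]

lemma patFam_shatters_card {V J : Type*} [AddCommGroup V] [Module ℝ V] [FiniteDimensional ℝ V]
    [Fintype J] [DecidableEq J] (f : J → V →ₗ[ℝ] ℝ) (b : J → ℝ) {S : Finset J}
    (hS : (patFam (fun j v => f j v) b).Shatters S) :
    S.card ≤ Module.finrank ℝ V + 1 := by
  classical
  by_contra hcon
  push Not at hcon
  -- family of vectors in Dual × ℝ
  let w : S → (Module.Dual ℝ V × ℝ) := fun j => (f j, b j)
  have hfr : Module.finrank ℝ (Module.Dual ℝ V × ℝ) = Module.finrank ℝ V + 1 := by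
    rw [Module.finrank_prod, Subspace.dual_finrank_eq, Module.finrank_self]
  have hdep : ¬ LinearIndependent ℝ w := by
    intro hli
    have h1 := hli.fintype_card_le_finrank
    rw [hfr, Fintype.card_coe] at h1
    omega
  obtain ⟨g, hg, i0, hi0⟩ := Fintype.not_linearIndependent_iff.1 hdep
  -- main contradiction for g with a positive coordinate
  have key : ∀ g : S → ℝ, ∑ i, g i • w i = 0 → ∀ i0 : S, 0 < g i0 → False := by
    intro g hg i0 hi0
    have hg1 : ∀ v, ∑ i : S, g i * f i v = 0 := by
      intro v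
      have h1 := congrArg Prod.fst hg
      have h2 := congrArg (fun φ : Module.Dual ℝ V => φ v) h1
      simpa [w, Prod.fst_sum] using h2
    have hg2 : ∑ i : S, g i * b i = 0 := by
      have h1 := congrArg Prod.snd hg
      simpa [w, Prod.snd_sum] using h1
    -- subset where g > 0
    let T : Finset J := S.filter (fun j => ∃ h : j ∈ S, 0 < g ⟨j, h⟩)
    obtain ⟨U, hU, hST⟩ := hS (Finset.filter_subset _ _ : T ⊆ S)
    obtain ⟨v, hv⟩ := (mem_patFam _ _ _).1 hU
    have hmem : ∀ i : S, (0 < g i ↔ b i < f i v) := by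
      intro i
      rw [← hv i]
      have : (i : J) ∈ S ∩ U ↔ (i : J) ∈ T := by rw [hST]
      simp only [Finset.mem_inter, i.2, true_and, T, Finset.mem_filter, exists_true_left] at this
      rw [this]
    have hsum : ∑ i : S, g i * (f i v - b i) = 0 := by
      simp only [mul_sub, Finset.sum_sub_distrib, hg1 v, hg2, sub_zero]
    have hnn : ∀ i ∈ (Finset.univ : Finset S), 0 ≤ g i * (f i v - b i) := by
      intro i _
      by_cases h : 0 < g i
      · have := (hmem i).1 h
        apply mul_nonneg h.le; linarith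
      · have h2 : ¬ b i < f i v := fun h' => h ((hmem i).2 h')
        push Not at h h2
        apply mul_nonneg_of_nonpos_of_nonpos h; linarith
    have hz := (Finset.sum_eq_zero_iff_of_nonneg hnn).1 hsum i0 (Finset.mem_univ _)
    have := (hmem i0).1 hi0
    have h3 : 0 < g i0 * (f i0 v - b i0) := mul_pos hi0 (by linarith)
    linarith
  rcases lt_or_gt_of_ne hi0 with h | h
  · refine key (fun i => - g i) ?_ i0 (by simpa using h)
    have : ∑ i : S, (- g i) • w i = - ∑ i : S, g i • w i := by
      rw [← Finset.sum_neg_distrib]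
      refine Finset.sum_congr rfl (fun i _ => ?_)
      ext
      · simp [w]
      · simp [w]
    rw [this, hg, neg_zero]
  · exact key g hg i0 h

/-- Polynomial bound for partial binomial sums. -/
lemma sum_choose_le (M d : ℕ) {x : ℝ} (hx0 : 0 < x) (hx1 : x ≤ 1) :
    (∑ k ∈ Finset.Iic d, (M.choose k : ℝ)) ≤ (1 / x) ^ d * Real.exp (x * M) := by
  have h1 : (∑ k ∈ Finset.Iic d, (M.choose k : ℝ)) ≤
      (1 / x) ^ d * ∑ k ∈ Finset.Iic d, (M.choose k : ℝ) * x ^ k := by
    rw [Finset.mul_sum]
    apply Finset.sum_le_sum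
    intro k hk
    have hk' : k ≤ d := Finset.mem_Iic.1 hk
    have : (1 : ℝ) ≤ (1 / x) ^ d * x ^ k := by
      have h3 : (1 / x) ^ d * x ^ k = (1 / x) ^ (d - k) := by
        have : d = (d - k) + k := by omega
        conv_lhs => rw [this]
        rw [pow_add, mul_assoc, ← mul_pow, one_div_mul_cancel hx0.ne', one_pow, mul_one]
      rw [h3]
      apply one_le_pow₀
      rw [le_div_iff₀ hx0]; linarith
    calc (M.choose k : ℝ) = (M.choose k : ℝ) * 1 := by ring
      _ ≤ (M.choose k : ℝ) * ((1 / x) ^ d * x ^ k) := by gcongr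
      _ = (1 / x) ^ d * ((M.choose k : ℝ) * x ^ k) := by ring
  have h2 : ∑ k ∈ Finset.Iic d, (M.choose k : ℝ) * x ^ k ≤ Real.exp (x * M) := by
    have h3 : ∑ k ∈ Finset.Iic d, (M.choose k : ℝ) * x ^ k ≤ (1 + x) ^ M := by
      have h4 : (1 + x) ^ M = ∑ k ∈ Finset.range (M + 1), (M.choose k : ℝ) * x ^ k := by
        rw [add_comm 1 x, add_pow]
        apply Finset.sum_congr rfl
        intro k _
        ring
      rw [h4]
      have h5 : ∑ k ∈ Finset.Iic d, (M.choose k : ℝ) * x ^ k =
          ∑ k ∈ Finset.Iic d ∩ Finset.range (M + 1), (M.choose k : ℝ) * x ^ k := by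
        symm
        apply Finset.sum_subset Finset.inter_subset_left
        intro k hk1 hk2
        have : M < k := by
          by_contra hc
          push Not at hc
          exact hk2 (Finset.mem_inter.2 ⟨hk1, Finset.mem_range.2 (by omega)⟩)
        rw [Nat.choose_eq_zero_of_lt this]; simp
      rw [h5]
      apply Finset.sum_le_sum_of_subset_of_nonneg Finset.inter_subset_right
      intro k _ _
      positivity
    refine h3.trans ?_
    have h6 : 1 + x ≤ Real.exp x := by
      have := Real.add_one_le_exp x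
      linarith
    calc (1 + x) ^ M ≤ (Real.exp x) ^ M := by gcongr
      _ = Real.exp (x * M) := by rw [← Real.exp_nat_mul]; ring_nf
  calc _ ≤ (1 / x) ^ d * ∑ k ∈ Finset.Iic d, (M.choose k : ℝ) * x ^ k := h1
    _ ≤ _ := by gcongr

lemma card_patFam_le {V J : Type*} [AddCommGroup V] [Module ℝ V] [FiniteDimensional ℝ V]
    [Fintype J] [DecidableEq J] (f : J → V →ₗ[ℝ] ℝ) (b : J → ℝ) (d : ℕ)
    (hd : Module.finrank ℝ V ≤ d) {x : ℝ} (hx0 : 0 < x) (hx1 : x ≤ 1) :
    ((patFam (fun j v => f j v) b).card : ℝ) ≤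
      (1 / x) ^ (d + 1) * Real.exp (x * Fintype.card J) := by
  classical
  have h1 : (patFam (fun j v => f j v) b).card ≤ ∑ k ∈ Finset.Iic (d + 1), (Fintype.card J).choose k := by
    refine (Finset.card_le_card_shatterer _).trans ?_
    refine (Finset.card_shatterer_le_sum_vcDim).trans ?_
    apply Finset.sum_le_sum_of_subset
    apply Finset.Iic_subset_Iic.2
    apply Finset.sup_le
    intro S hS
    have := patFam_shatters_card f b (Finset.mem_shatterer.1 hS)
    omega
  calc ((patFam (fun j v => f j v) b).card : ℝ)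
      ≤ ((∑ k ∈ Finset.Iic (d + 1), (Fintype.card J).choose k : ℕ) : ℝ) := by exact_mod_cast h1
    _ = ∑ k ∈ Finset.Iic (d + 1), ((Fintype.card J).choose k : ℝ) := by push_cast; rfl
    _ ≤ _ := sum_choose_le _ _ hx0 hx1

end Pool.Agent.Work.MP_07ff6b_an
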